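import Pool.Agent.Helper15_SIU.Lib3

/-!
# MP_021b97_an, module APX: density of the products
-/

set_option autoImplicit false

open MeasureTheory Filter Topology

namespace Pool.Agent.SIU.H15

open Pool.Agent.SIU

theorem pol_congr (P : MvPolynomial (Fin 3) ℝ) {z w : E7} (h0 : z 0 = w 0) (h1 : z 1 = w 1) :
    pol P z = pol P w := by
  unfold pol
  have : (fun i => xx i z) = fun i => xx i w := by
    funext i
    fin_cases i <;> simp [xx, AA, h0, h1]
  rw [this]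

theorem apx (hnbo : NboStmt) (h1 : Ap1Stmt) (h2 : Ap2Stmt) (h3 : Ap3Stmt) : ApxStmt := by
  intro 𝕂 hc hq a ha η hη
  obtain ⟨j₁, hj₁⟩ := h1 𝕂 hc a ha (η / 2) (by positivity)
  obtain ⟨m, P, r, r', hr, hP⟩ := h2 𝕂 hc hq a ha (η / 2) (by positivity)
  choose χ hχ jj hjj using fun l => h3 𝕂 hc hq (r l) (r' l) (hr l)
  refine ⟨m, P, χ, hχ, max j₁ (Finset.univ.sup jj), ?_⟩
  intro z hz
  set J := max j₁ (Finset.univ.sup jj) with hJ
  obtain ⟨hU, hrho, h6, y, hy, hd⟩ := hz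
  have hU' := (mem_U z).mp hU
  have mono : ∀ j, j ≤ J → (1 : ℝ) / (J + 1) ≤ 1 / (j + 1) := by
    intro j hj
    apply one_div_le_one_div_of_le (by positivity)
    have : (j : ℝ) ≤ J := by exact_mod_cast hj
    linarith
  have hz' : z ∈ Nb 𝕂 J := ⟨hU, hrho, h6, y, hy, hd⟩
  have k1 := hj₁ z ((hnbo 𝕂 j₁).2.2.2 J (le_max_left _ _) hz') y hy
    (hd.trans_le (mono j₁ (le_max_left _ _)))
  have k2 := hP (z 0) (z 1) hU'.1 y hy
  have k3 : ∀ l, χ l z * pol (P l) z = if (r l : ℝ) < y ∧ y < r' l then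
      pol (P l) ![z 0, z 1, 0, 0, 1, (y : ℂ), 1] else 0 := by
    intro l
    have hl : jj l ≤ J := (Finset.le_sup (Finset.mem_univ l)).trans (le_max_right _ _)
    rw [hjj l z ((hnbo 𝕂 (jj l)).2.2.2 J hl hz') y hy (hd.trans_le (mono _ hl)),
      pol_congr (P l) (z := z) (w := ![z 0, z 1, 0, 0, 1, (y : ℂ), 1]) rfl rfl]
    split_ifs <;> simp
  rw [Finset.sum_congr rfl fun l _ => k3 l]
  have := abs_add_le (a z - a ![z 0, z 1, 0, 0, 1, (y : ℂ), 1])
    (a ![z 0, z 1, 0, 0, 1, (y : ℂ), 1] - ∑ l, (if (r l : ℝ) < y ∧ y < r' l then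
          pol (P l) ![z 0, z 1, 0, 0, 1, (y : ℂ), 1] else 0))
  rw [sub_add_sub_cancel] at this
  linarith

end Pool.Agent.SIU.H15
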