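import Pool.Agent.Helper15_SIU.TdsW

/-!
# MP_021b97_an: assembly of the theorem for Q2
-/

set_option autoImplicit false

open MeasureTheory Filter Topology

namespace Pool.Agent.SIU.H15

open Pool.Agent.SIU

theorem fin (hkfm : KfmStmt) (hnbo : NboStmt) (hsft : SftStmt) (hgen : GenStmt) (hlnt : LntStmt)
    (hchg : ChgStmt) (hkst : KstStmt) (htdf : TdfStmt) (htcl : TclStmt) (htll : TllStmt)
    (htsp : TspStmt) (htnp : TnpStmt) (hbsd : BsdStmt) : FinStmt := by
  obtain ⟨𝕂, hc, hq, hv⟩ := hkst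
  obtain ⟨T, hT, hpc⟩ := htdf 𝕂 hc
  have hcl := htcl 𝕂 hc T hT
  obtain ⟨hsup, hkill⟩ := htsp 𝕂 hc T hT
  refine ⟨T, fun w => ?_⟩
  have hpos := positiveW 𝕂 hc T hT hpc w
  have hdsh := tdsW hbsd w T hpos hcl
  refine ⟨hpos, hcl, htll 𝕂 hc T hT, ⟨0, ?_⟩, not_positiveW T (htnp 𝕂 hc hv T hT) w⟩
  intro K β hβ
  set Kp : ℕ → E7 → Alt 7 6 := fun i => (K.K true 3 1 T i).1 with hKp
  set Km : ℕ → E7 → Alt 7 6 := fun i => (K.K false 3 1 T i).1 with hKm
  have hclo : ∀ (b : Bool) (i : ℕ), Clo (K.K b 3 1 T i).1 := by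
    intro b i
    refine ⟨(K.smooth b 3 1 rfl T hdsh i).of_le ?_, (K.K b 3 1 T i).2.2.1,
      K.p3 b 3 1 rfl T hpos hcl i⟩
    norm_cast
  have hps : ∀ (b : Bool) (i : ℕ), Pos3 (K.K b 3 1 T i).1 := fun b i z hz =>
    ⟨wpos_of_fpos ((K.p2 b 3 1 rfl T hdsh hpos).1 i z hz), fun u hu v => K.bideg b 3 1 rfl T hdsh i z hz u hu v⟩
  have hmass : ∀ b : Bool, ∃ c : ℝ, ∀ i, Lam false (K.K b 3 1 T i).1 X2.kahler ≤ c := by
    intro b
    obtain ⟨c, hc'⟩ := (K.p2 b 3 1 rfl T hdsh hpos).2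
    refine ⟨c, fun i => ?_⟩
    have h1 := hc' i
    have h2 : X2.pair (K.K b 3 1 T i).1 (X2.kpow 1) = Lam false (K.K b 3 1 T i).1 (X2.kpow 1) :=
      hchg.2 _ _
    have h3 : Lam false (K.K b 3 1 T i).1 (X2.kpow 1) = Lam false (K.K b 3 1 T i).1 X2.kahler :=
      Lam_congr (fun _ _ => rfl) hkfm.2.1
    linarith
  obtain ⟨c₁, hc₁⟩ := hmass true
  obtain ⟨c₂, hc₂⟩ := hmass false
  have hsub : ∀ i, (K.K true 3 1 T i - K.K false 3 1 T i).1 = fun z => Kp i z - Km i z :=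
    fun i => rfl
  have happ : Appr 𝕂 T Kp Km (max c₁ c₂) :=
    { cp := hclo true
      cm := hclo false
      pp := hps true
      pm := hps false
      mp := fun i => (hc₁ i).trans (le_max_left _ _)
      mm := fun i => (hc₂ i).trans (le_max_right _ _)
      conv := by
        intro γ hγ
        have h1 := K.conv 3 1 rfl T hdsh γ hγ
        refine h1.congr fun i => ?_
        exact hchg.2 _ _
      supp := by
        intro j
        obtain ⟨i₀, hi₀⟩ := K.p8 3 1 rfl (X2.supp T) (Nb 𝕂 j) (hnbo 𝕂 j).1 (hnbo 𝕂 j).2.1 (hsup j)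
        filter_upwards [eventually_ge_atTop i₀] with i hi z hz hzN
        by_contra hne
        apply hzN
        apply hi₀ T hdsh rfl i hi
        refine ⟨hz, subset_closure ⟨hz, ?_⟩⟩
        intro h0
        apply hne
        exact sub_eq_zero.mp h0 }
  obtain ⟨m, a, f, g, hinv, hβe⟩ := hgen β hβ
  have hcont : ∀ i, ContinuousOn (fun z => Kp i z - Km i z) X2.U := fun i =>
    (K.K true 3 1 T i - K.K false 3 1 T i).2.1
  have hbas : ∀ i, X2.BasicOn X2.U (fun z => Kp i z - Km i z) := fun i =>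
    (K.K true 3 1 T i - K.K false 3 1 T i).2.2.1
  have key : Tendsto (fun i => Lam true (fun z => Kp i z - Km i z) β.1 +
      Lam false (fun z => Kp i z - Km i z) β.1) atTop (𝓝 0) := by
    have e : ∀ i, Lam true (fun z => Kp i z - Km i z) β.1 +
        Lam false (fun z => Kp i z - Km i z) β.1 =
        ∑ l, (tri true (fun z => Kp i z - Km i z) (a l) (f l) (g l) +
          tri false (fun z => Kp i z - Km i z) (a l) (f l) (g l)) := by
      intro i
      rw [hlnt true _ (hcont i) (hbas i) β.1 m a f g hinv hβe,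
        hlnt false _ (hcont i) (hbas i) β.1 m a f g hinv hβe, Finset.sum_add_distrib]
    simp only [e]
    have h0 : (0 : ℝ) = ∑ _l : Fin m, (0 : ℝ) := by simp
    rw [h0]
    exact tendsto_finset_sum _ fun l _ =>
      hsft 𝕂 T Kp Km _ hc hq happ hkill (a l) (f l) (g l) (hinv l).1 (hinv l).2.1 (hinv l).2.2
  have h2 := happ.conv β hβ
  have h3 := key.sub h2
  simp only [add_sub_cancel_right, zero_sub] at h3
  have h4 : (-T) β = -T β := rfl
  rw [h4]
  refine h3.congr fun i => ?_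
  exact (hchg.1 (K.K true 3 1 T i - K.K false 3 1 T i) β).symm

end Pool.Agent.SIU.H15
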