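import Pool.Agent.Helper15_SIU.Defs2

/-!
# MP_021b97_an: basic facts about the example (library for all modules)
-/

set_option autoImplicit false

open MeasureTheory Filter Topology

namespace Pool.Agent.SIU

theorem mem_U (z : E7) : z ∈ X2.U ↔
    (z 0 ≠ 0 ∨ z 1 ≠ 0) ∧ (z 2 ≠ 0 ∨ z 3 ≠ 0 ∨ z 4 ≠ 0) ∧ (z 5 ≠ 0 ∨ z 6 ≠ 0) := by
  constructor
  · intro h
    refine ⟨?_, ?_, ?_⟩
    · obtain ⟨m, hm, hz⟩ := h 0
      fin_cases m <;> first | exact absurd hm (by decide) | skip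
      · exact Or.inl hz
      · exact Or.inr hz
    · obtain ⟨m, hm, hz⟩ := h 1
      fin_cases m <;> first | exact absurd hm (by decide) | skip
      · exact Or.inl hz
      · exact Or.inr (Or.inl hz)
      · exact Or.inr (Or.inr hz)
    · obtain ⟨m, hm, hz⟩ := h 2
      fin_cases m <;> first | exact absurd hm (by decide) | skip
      · exact Or.inl hz
      · exact Or.inr hz
  · rintro ⟨h0, h1, h2⟩ j
    fin_cases j
    · rcases h0 with h | h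
      · exact ⟨0, rfl, h⟩
      · exact ⟨1, rfl, h⟩
    · rcases h1 with h | h | h
      · exact ⟨2, rfl, h⟩
      · exact ⟨3, rfl, h⟩
      · exact ⟨4, rfl, h⟩
    · rcases h2 with h | h
      · exact ⟨5, rfl, h⟩
      · exact ⟨6, rfl, h⟩

theorem isOpen_U : IsOpen X2.U := by
  have h : X2.U = ({z | z 0 ≠ 0} ∪ {z | z 1 ≠ 0}) ∩ (({z | z 2 ≠ 0} ∪ ({z | z 3 ≠ 0} ∪
      {z | z 4 ≠ 0})) ∩ ({z | z 5 ≠ 0} ∪ {z | z 6 ≠ 0})) := by
    ext z
    exact mem_U z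
  rw [h]
  have ho : ∀ j : Fin 7, IsOpen {z : E7 | z j ≠ 0} := fun j =>
    isOpen_ne_fun (continuous_apply j) continuous_const
  exact ((ho 0).union (ho 1)).inter (((ho 2).union ((ho 3).union (ho 4))).inter
    ((ho 5).union (ho 6)))

theorem act_eq (c : Fin 3 → ℂ) (z : E7) : X2.act c z = ![c 0 * z 0, c 0 * z 1,
    (c 0)⁻¹ * c 1 * z 2, (c 0)⁻¹ * c 1 * z 3, c 1 * z 4, c 2 * z 5, c 2 * z 6] := by
  funext m
  fin_cases m <;> simp [Toric.act, X2, Fin.prod_univ_three, zpow_neg]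

theorem act_mem_U {c : Fin 3 → ℂ} (hc : ∀ j, c j ≠ 0) (z : E7) :
    X2.act c z ∈ X2.U ↔ z ∈ X2.U := by
  rw [mem_U, mem_U, act_eq]
  have h0 := hc 0
  have h1 := hc 1
  have h2 := hc 2
  simp [h0, h1, h2]

/-- the action of `c` as a linear map -/
noncomputable def actL (c : Fin 3 → ℂ) : E7 →L[ℂ] E7 :=
  ContinuousLinearMap.pi fun m => (∏ j, c j ^ X2.wt m j) • ContinuousLinearMap.proj m

theorem actL_apply (c : Fin 3 → ℂ) (z : E7) : actL c z = X2.act c z := rfl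

theorem act_inv {c : Fin 3 → ℂ} (hc : ∀ j, c j ≠ 0) (z : E7) :
    X2.act (fun j => (c j)⁻¹) (X2.act c z) = z := by
  have h0 := hc 0
  have h1 := hc 1
  have h2 := hc 2
  rw [act_eq, act_eq]
  funext m
  fin_cases m <;> simp <;> field_simp

theorem vert_iff (z v : E7) : X2.Vert z v ↔ ∃ a b c : ℂ,
    v = ![a * z 0, a * z 1, (b - a) * z 2, (b - a) * z 3, b * z 4, c * z 5, c * z 6] := by
  constructor
  · rintro ⟨a, h⟩
    refine ⟨a 0, a 1, a 2, ?_⟩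
    funext m
    rw [h m]
    fin_cases m <;> simp [X2, Fin.sum_univ_three] <;> (left; ring)
  · rintro ⟨a, b, c, rfl⟩
    refine ⟨![a, b, c], ?_⟩
    intro m
    fin_cases m <;> simp [X2, Fin.sum_univ_three] <;> (left; ring)

theorem sigma_eq (x : Fin 4 → ℂ) : X2.σ x = sig x := by
  funext m
  fin_cases m <;> simp [Toric.σ, X2, sig, Fin.sum_univ_four, Fin.sum_univ_three]

theorem sigma_eq' : X2.σ = sig := funext sigma_eq

theorem sig_mem_U (x : Fin 4 → ℂ) : sig x ∈ X2.U := by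
  rw [mem_U]
  simp [sig]

theorem inc_eq (w : Fin 4 → ℂ) : inc w = ![w 0, 0, w 1, w 2, 0, w 3, 0] := by
  funext m
  fin_cases m <;> simp [inc]

theorem hasFDerivAt_sig (x : Fin 4 → ℂ) :
    HasFDerivAt sig (inc.restrictScalars ℝ) x := by
  have h : sig = fun x => inc x + ![0, 1, 0, 0, 1, 0, 1] := by
    funext x m
    rw [inc_eq]
    fin_cases m <;> simp [sig]
  rw [h]
  exact (inc.restrictScalars ℝ).hasFDerivAt.add_const _

theorem fderiv_sigma (x : Fin 4 → ℂ) : fderiv ℝ X2.σ x = inc.restrictScalars ℝ := by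
  rw [sigma_eq']
  exact (hasFDerivAt_sig x).fderiv

theorem pull_sigma {k : ℕ} (ω : E7 → Alt 7 k) (x : Fin 4 → ℂ) :
    Toric.pull X2.σ ω x = (ω (sig x)).compContinuousLinearMap (inc.restrictScalars ℝ) := by
  unfold Toric.pull
  rw [fderiv_sigma, sigma_eq]

theorem AA_act (c : Fin 3 → ℂ) (z : E7) : AA (X2.act c z) = ‖c 0‖ ^ 2 * AA z := by
  rw [act_eq]; simp [AA]; ring

theorem BB_act (c : Fin 3 → ℂ) (z : E7) :
    BB (X2.act c z) = (‖c 0‖⁻¹) ^ 2 * ‖c 1‖ ^ 2 * BB z := by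
  rw [act_eq]; simp [BB]; ring

theorem DD_act {c : Fin 3 → ℂ} (hc : ∀ j, c j ≠ 0) (z : E7) :
    DD (X2.act c z) = ‖c 1‖ ^ 2 * DD z := by
  have h0 : ‖c 0‖ ≠ 0 := norm_ne_zero_iff.mpr (hc 0)
  rw [act_eq]; simp [DD]; field_simp

theorem YY_act (c : Fin 3 → ℂ) (z : E7) : YY (X2.act c z) = ‖c 2‖ ^ 2 * YY z := by
  rw [act_eq]; simp [YY]; ring

theorem DD_eq (z : E7) : DD z = AA z * BB z + ‖z 4‖ ^ 2 := rfl

theorem rho_act {c : Fin 3 → ℂ} (hc : ∀ j, c j ≠ 0) (z : E7) : rho (X2.act c z) = rho z := by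
  have h0 : ‖c 0‖ ≠ 0 := norm_ne_zero_iff.mpr (hc 0)
  have h1 : ‖c 1‖ ≠ 0 := norm_ne_zero_iff.mpr (hc 1)
  unfold rho
  rw [AA_act, BB_act, DD_act hc]
  by_cases hD : DD z = 0
  · rw [hD]; simp
  · field_simp

theorem AA_nonneg (z : E7) : 0 ≤ AA z := by unfold AA; positivity
theorem BB_nonneg (z : E7) : 0 ≤ BB z := by unfold BB; positivity
theorem DD_nonneg (z : E7) : 0 ≤ DD z := by unfold DD; positivity
theorem YY_nonneg (z : E7) : 0 ≤ YY z := by unfold YY; positivity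

theorem AA_ne_zero (z : E7) : AA z ≠ 0 ↔ (z 0 ≠ 0 ∨ z 1 ≠ 0) := by
  unfold AA
  rw [← not_iff_not]
  push Not
  constructor
  · intro h
    have h1 : ‖z 0‖ ^ 2 = 0 := by nlinarith [sq_nonneg ‖z 0‖, sq_nonneg ‖z 1‖]
    have h2 : ‖z 1‖ ^ 2 = 0 := by nlinarith [sq_nonneg ‖z 0‖, sq_nonneg ‖z 1‖]
    exact ⟨by simpa using h1, by simpa using h2⟩
  · rintro ⟨h1, h2⟩; simp [h1, h2]

theorem BB_ne_zero (z : E7) : BB z ≠ 0 ↔ (z 2 ≠ 0 ∨ z 3 ≠ 0) := by
  unfold BB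
  rw [← not_iff_not]
  push Not
  constructor
  · intro h
    have h1 : ‖z 2‖ ^ 2 = 0 := by nlinarith [sq_nonneg ‖z 2‖, sq_nonneg ‖z 3‖]
    have h2 : ‖z 3‖ ^ 2 = 0 := by nlinarith [sq_nonneg ‖z 2‖, sq_nonneg ‖z 3‖]
    exact ⟨by simpa using h1, by simpa using h2⟩
  · rintro ⟨h1, h2⟩; simp [h1, h2]

theorem YY_ne_zero (z : E7) : YY z ≠ 0 ↔ (z 5 ≠ 0 ∨ z 6 ≠ 0) := by
  unfold YY
  rw [← not_iff_not]
  push Not
  constructor
  · intro h
    have h1 : ‖z 5‖ ^ 2 = 0 := by nlinarith [sq_nonneg ‖z 5‖, sq_nonneg ‖z 6‖]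
    have h2 : ‖z 6‖ ^ 2 = 0 := by nlinarith [sq_nonneg ‖z 5‖, sq_nonneg ‖z 6‖]
    exact ⟨by simpa using h1, by simpa using h2⟩
  · rintro ⟨h1, h2⟩; simp [h1, h2]

theorem AA_pos {z : E7} (hz : z ∈ X2.U) : 0 < AA z :=
  lt_of_le_of_ne (AA_nonneg z) (Ne.symm ((AA_ne_zero z).mpr ((mem_U z).mp hz).1))

theorem YY_pos {z : E7} (hz : z ∈ X2.U) : 0 < YY z :=
  lt_of_le_of_ne (YY_nonneg z) (Ne.symm ((YY_ne_zero z).mpr ((mem_U z).mp hz).2.2))

theorem DD_pos {z : E7} (hz : z ∈ X2.U) : 0 < DD z := by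
  rw [DD_eq]
  have hA := AA_pos hz
  have hB := BB_nonneg z
  by_cases h : BB z = 0
  · have h4 : z 4 ≠ 0 := by
      rcases ((mem_U z).mp hz).2.1 with h2 | h3 | h4
      · exact absurd h ((BB_ne_zero z).mpr (Or.inl h2))
      · exact absurd h ((BB_ne_zero z).mpr (Or.inr h3))
      · exact h4
    have : 0 < ‖z 4‖ := norm_pos_iff.mpr h4
    rw [h]; positivity
  · have : 0 < BB z := lt_of_le_of_ne hB (Ne.symm h)
    positivity

theorem BB_pos {z : E7} (hz : z ∈ U2') : 0 < BB z :=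
  lt_of_le_of_ne (BB_nonneg z) (Ne.symm hz.2)

theorem mem_U_of {z : E7} (hA : AA z ≠ 0) (hD : DD z ≠ 0) (hY : YY z ≠ 0) : z ∈ X2.U := by
  rw [mem_U]
  refine ⟨(AA_ne_zero z).mp hA, ?_, (YY_ne_zero z).mp hY⟩
  by_contra h
  push Not at h
  apply hD
  rw [DD_eq]
  simp [BB, h.1, h.2.1, h.2.2]

theorem flop_apply (z : E7) : flop z = ![z 2, z 3, z 0, z 1, z 4, z 5, z 6] := by
  funext m
  fin_cases m <;> simp [flop]

theorem flop_flop (z : E7) : flop (flop z) = z := by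
  rw [flop_apply, flop_apply]
  funext m
  fin_cases m <;> simp

theorem AA_flop (z : E7) : AA (flop z) = BB z := by rw [flop_apply]; simp [AA, BB]
theorem BB_flop (z : E7) : BB (flop z) = AA z := by rw [flop_apply]; simp [AA, BB]
theorem DD_flop (z : E7) : DD (flop z) = DD z := by rw [flop_apply]; simp [DD]; ring
theorem YY_flop (z : E7) : YY (flop z) = YY z := by rw [flop_apply]; simp [YY]
theorem rho_flop (z : E7) : rho (flop z) = rho z := by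
  unfold rho; rw [AA_flop, BB_flop, DD_flop, mul_comm]

theorem flop_mem {z : E7} (hz : z ∈ U2') : flop z ∈ U2' := by
  refine ⟨mem_U_of ?_ ?_ ?_, ?_⟩
  · rw [AA_flop]; exact hz.2
  · rw [DD_flop]; exact (DD_pos hz.1).ne'
  · rw [YY_flop]; exact (YY_pos hz.1).ne'
  · rw [BB_flop]; exact (AA_pos hz.1).ne'

theorem flop_act {c : Fin 3 → ℂ} (hc : ∀ j, c j ≠ 0) (z : E7) :
    flop (X2.act c z) = X2.act ![(c 0)⁻¹ * c 1, c 1, c 2] (flop z) := by
  have h0 := hc 0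
  have h1 := hc 1
  rw [flop_apply, act_eq, act_eq, flop_apply]
  funext m
  fin_cases m <;> simp
  · left; field_simp
  · left; field_simp

theorem act_mem_U2' {c : Fin 3 → ℂ} (hc : ∀ j, c j ≠ 0) {z : E7} (hz : z ∈ U2') :
    X2.act c z ∈ U2' := by
  refine ⟨(act_mem_U hc z).mpr hz.1, ?_⟩
  rw [BB_act]
  have h0 : ‖c 0‖ ≠ 0 := norm_ne_zero_iff.mpr (hc 0)
  have h1 : ‖c 1‖ ≠ 0 := norm_ne_zero_iff.mpr (hc 1)
  have := hz.2
  positivity

theorem continuous_AA : Continuous AA := by unfold AA; fun_prop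
theorem continuous_BB : Continuous BB := by unfold BB; fun_prop
theorem continuous_DD : Continuous DD := by unfold DD; fun_prop
theorem continuous_YY : Continuous YY := by unfold YY; fun_prop

theorem isOpen_U2' : IsOpen U2' :=
  isOpen_U.inter (isOpen_ne_fun continuous_BB continuous_const)

theorem Shell_subset : Shell ⊆ X2.U := by
  rintro z ⟨h1, -, h3, -, h5, -⟩
  exact mem_U_of (by linarith) (by linarith) (by linarith)

theorem isCompact_Shell : IsCompact Shell := by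
  apply Metric.isCompact_of_isClosed_isBounded
  · have h : Shell = {z : E7 | 1 / 2 ≤ AA z} ∩ ({z | AA z ≤ 2} ∩ ({z | 1 / 2 ≤ DD z} ∩
        ({z | DD z ≤ 2} ∩ ({z | 1 / 2 ≤ YY z} ∩ {z | YY z ≤ 2})))) := rfl
    rw [h]
    exact (isClosed_le continuous_const continuous_AA).inter
      ((isClosed_le continuous_AA continuous_const).inter
      ((isClosed_le continuous_const continuous_DD).inter
      ((isClosed_le continuous_DD continuous_const).inter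
      ((isClosed_le continuous_const continuous_YY).inter
        (isClosed_le continuous_YY continuous_const)))))
  · refine (Metric.isBounded_closedBall (x := (0 : E7)) (r := 2)).subset ?_
    rintro z ⟨h1, h2, h3, h4, h5, h6⟩
    rw [mem_closedBall_zero_iff, pi_norm_le_iff_of_nonneg (by norm_num)]
    have key : ∀ x : ℝ, 0 ≤ x → x ^ 2 ≤ 4 → x ≤ 2 := by
      intro x hx h; nlinarith
    have hB : BB z ≤ 4 := by
      rw [DD_eq] at h4
      have := BB_nonneg z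
      nlinarith [sq_nonneg ‖z 4‖]
    have hv : ‖z 4‖ ^ 2 ≤ 4 := by
      rw [DD_eq] at h4
      have := mul_nonneg (AA_nonneg z) (BB_nonneg z)
      linarith
    unfold AA at h2
    unfold BB at hB
    unfold YY at h6
    intro i
    fin_cases i <;> apply key _ (norm_nonneg _)
    · show ‖z 0‖ ^ 2 ≤ 4
      nlinarith [sq_nonneg ‖z 1‖]
    · show ‖z 1‖ ^ 2 ≤ 4
      nlinarith [sq_nonneg ‖z 0‖]
    · show ‖z 2‖ ^ 2 ≤ 4
      nlinarith [sq_nonneg ‖z 3‖]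
    · show ‖z 3‖ ^ 2 ≤ 4
      nlinarith [sq_nonneg ‖z 2‖]
    · exact hv
    · show ‖z 5‖ ^ 2 ≤ 4
      nlinarith [sq_nonneg ‖z 6‖]
    · show ‖z 6‖ ^ 2 ≤ 4
      nlinarith [sq_nonneg ‖z 5‖]

/-- normalization -/
theorem exists_act_normal {z : E7} (hz : z ∈ X2.U) : ∃ c : Fin 3 → ℂ, (∀ j, c j ≠ 0) ∧
    AA (X2.act c z) = 1 ∧ DD (X2.act c z) = 1 ∧ YY (X2.act c z) = 1 ∧ X2.act c z ∈ Shell := by
  have hA := AA_pos hz
  have hD := DD_pos hz
  have hY := YY_pos hz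
  have key : ∀ t : ℝ, 0 < t → ((((√t)⁻¹ : ℝ) : ℂ) ≠ 0) ∧ ‖(((√t)⁻¹ : ℝ) : ℂ)‖ ^ 2 * t = 1 := by
    intro t ht
    have h1 : 0 < (√t)⁻¹ := inv_pos.mpr (Real.sqrt_pos.mpr ht)
    refine ⟨by exact_mod_cast h1.ne', ?_⟩
    rw [Complex.norm_real, Real.norm_of_nonneg h1.le, inv_pow, Real.sq_sqrt ht.le]
    exact inv_mul_cancel₀ ht.ne'
  refine ⟨![(((√(AA z))⁻¹ : ℝ) : ℂ), (((√(DD z))⁻¹ : ℝ) : ℂ), (((√(YY z))⁻¹ : ℝ) : ℂ)],
    ?_, ?_⟩
  · intro j
    fin_cases j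
    · exact (key _ hA).1
    · exact (key _ hD).1
    · exact (key _ hY).1
  · have hc : ∀ j, (![(((√(AA z))⁻¹ : ℝ) : ℂ), (((√(DD z))⁻¹ : ℝ) : ℂ),
        (((√(YY z))⁻¹ : ℝ) : ℂ)] : Fin 3 → ℂ) j ≠ 0 := by
      intro j
      fin_cases j
      · exact (key _ hA).1
      · exact (key _ hD).1
      · exact (key _ hY).1
    have e1 := AA_act ![(((√(AA z))⁻¹ : ℝ) : ℂ), (((√(DD z))⁻¹ : ℝ) : ℂ),
        (((√(YY z))⁻¹ : ℝ) : ℂ)] z
    have e2 := DD_act hc z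
    have e3 := YY_act ![(((√(AA z))⁻¹ : ℝ) : ℂ), (((√(DD z))⁻¹ : ℝ) : ℂ),
        (((√(YY z))⁻¹ : ℝ) : ℂ)] z
    have f1 := e1.trans (key _ hA).2
    have f2 := e2.trans (key _ hD).2
    have f3 := e3.trans (key _ hY).2
    refine ⟨f1, f2, f3, ?_⟩
    unfold Shell
    show 1 / 2 ≤ _ ∧ _ ≤ 2 ∧ 1 / 2 ≤ _ ∧ _ ≤ 2 ∧ 1 / 2 ≤ _ ∧ _ ≤ 2
    rw [f1, f2, f3]
    norm_num

/-- the vectors `inc (stdb 4 8 i)` -/
theorem inc_stdb : (fun i : Fin 8 => inc (stdb 4 8 i)) =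
    ![![1, 0, 0, 0, 0, 0, 0], ![Complex.I, 0, 0, 0, 0, 0, 0],
      ![0, 0, 1, 0, 0, 0, 0], ![0, 0, Complex.I, 0, 0, 0, 0],
      ![0, 0, 0, 1, 0, 0, 0], ![0, 0, 0, Complex.I, 0, 0, 0],
      ![0, 0, 0, 0, 0, 1, 0], ![0, 0, 0, 0, 0, Complex.I, 0]] := by
  funext i m
  fin_cases i <;> fin_cases m <;> simp [inc_eq, stdb, cvec]

/-! ## Invariant functions -/

theorem InvFn.const (t : ℝ) : InvFn (fun _ => t) :=
  ⟨contDiffOn_const, fun _ _ _ _ => rfl⟩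

theorem InvFn.add {f g : E7 → ℝ} (hf : InvFn f) (hg : InvFn g) : InvFn (fun z => f z + g z) :=
  ⟨hf.1.add hg.1, fun z hz c hc => by
    show f _ + g _ = f z + g z
    rw [hf.2 z hz c hc, hg.2 z hz c hc]⟩

theorem InvFn.sub {f g : E7 → ℝ} (hf : InvFn f) (hg : InvFn g) : InvFn (fun z => f z - g z) :=
  ⟨hf.1.sub hg.1, fun z hz c hc => by
    show f _ - g _ = f z - g z
    rw [hf.2 z hz c hc, hg.2 z hz c hc]⟩

theorem InvFn.mul {f g : E7 → ℝ} (hf : InvFn f) (hg : InvFn g) : InvFn (fun z => f z * g z) :=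
  ⟨hf.1.mul hg.1, fun z hz c hc => by
    show f _ * g _ = f z * g z
    rw [hf.2 z hz c hc, hg.2 z hz c hc]⟩

theorem InvFn.sum {ι : Type*} (s : Finset ι) {f : ι → E7 → ℝ} (hf : ∀ i ∈ s, InvFn (f i)) :
    InvFn (fun z => ∑ i ∈ s, f i z) := by
  classical
  induction s using Finset.induction_on with
  | empty => simpa using InvFn.const 0
  | insert i s his ih =>
    simp only [Finset.sum_insert his]
    exact (hf i (Finset.mem_insert_self i s)).add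
      (ih fun j hj => hf j (Finset.mem_insert_of_mem hj))

/-- an invariant continuous function is bounded on `U` -/
theorem bounded_of_inv {f : E7 → ℝ} (hf : ContinuousOn f X2.U)
    (hi : ∀ z ∈ X2.U, ∀ c : Fin 3 → ℂ, (∀ j, c j ≠ 0) → f (X2.act c z) = f z) :
    ∃ C : ℝ, ∀ z ∈ X2.U, |f z| ≤ C := by
  obtain ⟨C, hC⟩ := isCompact_Shell.exists_bound_of_continuousOn (hf.mono Shell_subset)
  refine ⟨C, fun z hz => ?_⟩
  obtain ⟨c, hc, -, -, -, hS⟩ := exists_act_normal hz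
  rw [← hi z hz c hc]
  exact hC _ hS

theorem InvFn.bounded {f : E7 → ℝ} (hf : InvFn f) : ∃ C : ℝ, ∀ z ∈ X2.U, |f z| ≤ C :=
  bounded_of_inv hf.1.continuousOn hf.2

theorem LL_mem (b : Bool) {z : E7} (hz : z ∈ U2') : LL b z ∈ U2' := by
  cases b
  · exact hz
  · exact flop_mem hz

theorem sig_mem_U2' (x : Fin 4 → ℂ) : sig x ∈ U2' ↔ (x 1 ≠ 0 ∨ x 2 ≠ 0) := by
  constructor
  · intro h
    have := (BB_ne_zero _).mp h.2
    simpa [sig] using this
  · intro h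
    refine ⟨sig_mem_U x, (BB_ne_zero _).mpr ?_⟩
    simpa [sig] using h

end Pool.Agent.SIU
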