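import Pool.Agent.Helper15_SIU.Stmts

/-!
# MP_021b97_an: small congruence lemmas
(unfold `chi` only in separate small lemmas: otherwise the kernel may run into deep recursion)
-/

set_option autoImplicit false
open MeasureTheory Filter Topology
namespace Pool.Agent.SIU


theorem ae_sig : ∀ᵐ x : Fin 4 → ℂ, sig x ∈ U2' := by
  have h1 : ∀ᵐ x : Fin 4 → ℂ, x 1 ≠ 0 := by
    have h := Measure.pi_hyperplane (fun _ : Fin 4 => (volume : Measure ℂ)) 1 0
    rw [← volume_pi] at h
    exact compl_mem_ae_iff.mpr h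
  filter_upwards [h1] with x hx
  exact (sig_mem_U2' x).mpr (Or.inl hx)

theorem chi_congr {η η' : E7 → Alt 7 8} {x : Fin 4 → ℂ} (h : η (sig x) = η' (sig x)) :
    chi η x = chi η' x := by
  unfold chi
  rw [h]

theorem lamF_congr {b : Bool} {K K' : E7 → Alt 7 6} {η η' : E7 → Alt 7 2} {z : E7}
    (hK : K z = K' z) (hη : η (LL b z) = η' (LL b z)) : lamF b K η z = lamF b K' η' z := by
  unfold lamF lp
  rw [hK, hη]

theorem Lam_congr {b : Bool} {K K' : E7 → Alt 7 6} {η η' : E7 → Alt 7 2}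
    (hK : ∀ z ∈ X2.U, K z = K' z) (hη : ∀ z ∈ X2.U, η z = η' z) : Lam b K η = Lam b K' η' := by
  unfold Lam
  refine integral_congr_ae ?_
  filter_upwards [ae_sig] with x hx
  exact chi_congr (lamF_congr (hK _ hx.1) (hη _ (LL_mem b hx).1))
end Pool.Agent.SIU
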