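import Pool.Agent.Helper98_SIU.ALG
import Pool.Agent.Helper19_SIU.LBZ
import Pool.Agent.Helper17_SIU.AP1
import Pool.Agent.Helper65_SIU.AP2
import Pool.Agent.Helper20_SIU.AP3
import Pool.Agent.Helper15_SIU.APX
import Pool.Agent.Helper93_SIU.BDF
import Pool.Agent.Helper50_SIU.Bsd
import Pool.Agent.Helper55_SIU.CHG
import Pool.Agent.Helper91_SIU.CMP
import Pool.Agent.Helper75_SIU.CTF
import Pool.Agent.Helper93_SIU.CUT
import Pool.Agent.Helper63_SIU.DCT
import Pool.Agent.Helper44_SIU.DEN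
import Pool.Agent.Helper44_SIU.FIB
import Pool.Agent.Helper91_SIU.GEN
import Pool.Agent.Helper63_SIU.ISH
import Pool.Agent.Helper4_SIU.KDC
import Pool.Agent.Helper79_SIU.KFM
import Pool.Agent.Helper47_SIU.Kst
import Pool.Agent.Helper79_SIU.LGB
import Pool.Agent.Helper76_SIU.LGR
import Pool.Agent.Helper76_SIU.LIN
import Pool.Agent.Helper50_SIU.Lnk
import Pool.Agent.Helper81_SIU.Lnt
import Pool.Agent.Helper64_SIU.MBD
import Pool.Agent.Helper20_SIU.NBO
import Pool.Agent.Helper59_SIU.NIN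
import Pool.Agent.Helper64_SIU.ORD
import Pool.Agent.Helper68_SIU.PCS
import Pool.Agent.Helper98_SIU.PSV
import Pool.Agent.Helper4_SIU.SFT
import Pool.Agent.Helper17_SIU.SK0
import Pool.Agent.Helper65_SIU.SPH
import Pool.Agent.Helper75_SIU.STK
import Pool.Agent.Helper55_SIU.TCL
import Pool.Agent.Helper68_SIU.TDF
import Pool.Agent.Helper20_SIU.TLL
import Pool.Agent.Helper43_SIU.Tnp
import Pool.Agent.Helper49_SIU.Trb
import Pool.Agent.Helper9_SIU.TRS
import Pool.Agent.Helper49_SIU.Tsp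
import Pool.Agent.Helper18_SIU.WDG
import Pool.Agent.Helper18_SIU.WON
import Pool.Agent.Helper15_SIU.Fin

/-!
# MP_021b97_an, Q2: assembly of all modules
-/

set_option autoImplicit false

namespace Pool.Agent.SIU.H15

open Pool.Agent.SIU

theorem wdgS : WdgStmt := H18.wdg
theorem wonS : WonStmt := H18.won
theorem lnkS : LnkStmt := H50.lnk wonS
theorem lbzS : LbzStmt := H19.lbz wdgS wonS lnkS
theorem bsdS : BsdStmt := H50.bsd
theorem lgbS : LgbStmt := H79.lgb
theorem kfmS : KfmStmt := H79.kfm lnkS lgbS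
theorem fibS : FibStmt := H44.fib
theorem shcS : ShcStmt := H47.shc
theorem denS : DenStmt := H44.den
theorem ninS : NinStmt := H59.nin fibS shcS denS
theorem ishS : IshStmt := H63.ish
theorem dctS : DctStmt := H63.dct ninS
theorem sk0S : Sk0Stmt := H17.sk0
theorem stkS : StkStmt := H75.stk wdgS wonS lbzS bsdS dctS ishS sk0S
theorem ctfS : CtfStmt := H75.ctf
theorem bdfS : BdfStmt := H93.bdf
theorem cutS : CutStmt := H93.cut wdgS wonS lbzS bsdS dctS ishS stkS ctfS
theorem lgrS : LgrStmt := H76.lgr bsdS bdfS kfmS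
theorem linS : LinStmt := H76.lin wdgS wonS bsdS bdfS ishS dctS
theorem cmpS : CmpStmt := H91.cmp wdgS linS lgrS cutS kfmS bdfS
theorem psvS : PsvStmt := H98.psv wonS
theorem kdcS : KdcStmt := H4.kdc bsdS
theorem ordS : OrdStmt := H64.ord wdgS wonS lnkS bsdS psvS kdcS
theorem mbdS : MbdStmt := H64.mbd wdgS wonS lnkS kfmS psvS kdcS linS cmpS
theorem trbS : TrbStmt := H49.trb wdgS wonS linS ordS mbdS kfmS
theorem trsS : TrsStmt := H9.trs wdgS wonS lnkS lbzS bsdS bdfS linS cutS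
theorem sphS : SphStmt := H65.sph
theorem algS : AlgStmt := H98.alg
theorem lntS : LntStmt := H81.lnt wdgS wonS lnkS linS
theorem pcsS : PcsStmt := H68.pcs lnkS wonS wdgS linS trsS sphS algS lntS
theorem nboS : NboStmt := H20.nbo
theorem ap1S : Ap1Stmt := H17.ap1
theorem ap2S : Ap2Stmt := H65.ap2
theorem ap3S : Ap3Stmt := H20.ap3
theorem apxS : ApxStmt := apx nboS ap1S ap2S ap3S
theorem sftS : SftStmt := H4S.sft wdgS linS kfmS cmpS trbS trsS pcsS apxS nboS
theorem genS : GenStmt := H91.gen bsdS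
theorem chgS : ChgStmt := H55.chg wdgS
theorem kstS : KstStmt := H47.kst
theorem tdfS : TdfStmt := H68.tdf
theorem tclS : TclStmt := H55T.tcl
theorem tllS : TllStmt := H20.tll kfmS
theorem tspS : TspStmt := H49.tsp
theorem tnpS : TnpStmt := H43.tnp kfmS kdcS

/-- Q2 of MP_021b97_an -/
theorem finS : FinStmt :=
  fin kfmS nboS sftS genS lntS chgS kstS tdfS tclS tllS tspS tnpS bsdS

end Pool.Agent.SIU.H15
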