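import Pool.Agent.Helper15_SIU.Lib2

/-!
# MP_021b97_an: statements of the modules (Q2).  Plan with proofs: /team-store/PLAN_SIU.md
-/

set_option autoImplicit false

open MeasureTheory Filter Topology
open scoped ENNReal

namespace Pool.Agent.SIU

/-! ## Part A: exterior algebra and calculus (general) -/

/-- WDG: the wedge product is bilinear, natural, smooth, bounded. -/
def WdgStmt : Prop :=
  ∀ N k l : ℕ,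
    (∀ (a a' : Alt N k) (b : Alt N l), wedge (a + a') b = wedge a b + wedge a' b) ∧
    (∀ (a : Alt N k) (b b' : Alt N l), wedge a (b + b') = wedge a b + wedge a b') ∧
    (∀ (t : ℝ) (a : Alt N k) (b : Alt N l),
      wedge (t • a) b = t • wedge a b ∧ wedge a (t • b) = t • wedge a b) ∧
    (∀ (n : ℕ) (L : (Fin n → ℂ) →L[ℝ] (Fin N → ℂ)) (a : Alt N k) (b : Alt N l),
      (wedge a b).compContinuousLinearMap L =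
        wedge (a.compContinuousLinearMap L) (b.compContinuousLinearMap L)) ∧
    (∀ m : WithTop ℕ∞, ContDiff ℝ m (fun p : Alt N k × Alt N l => wedge p.1 p.2)) ∧
    (∃ C : ℝ, ∀ (a : Alt N k) (b : Alt N l), ‖wedge a b‖ ≤ C * ‖a‖ * ‖b‖) ∧
    (∀ (r n : ℕ) (X : Toric N r n) (V : Set (Fin N → ℂ)) (a : (Fin N → ℂ) → Alt N k)
      (b : (Fin N → ℂ) → Alt N l), X.BasicOn V a → X.BasicOn V b →
      X.BasicOn V (fun z => wedge (a z) (b z)))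

/-- WON: `w1` is bilinear, natural, anticommutative, bounded, smooth; evaluation rules. -/
def WonStmt : Prop :=
  ∀ N k : ℕ,
    (∀ (c c' : (Fin N → ℂ) →L[ℝ] ℝ) (a : Alt N k), w1 (c + c') a = w1 c a + w1 c' a) ∧
    (∀ (c : (Fin N → ℂ) →L[ℝ] ℝ) (a a' : Alt N k), w1 c (a + a') = w1 c a + w1 c a') ∧
    (∀ (t : ℝ) (c : (Fin N → ℂ) →L[ℝ] ℝ) (a : Alt N k),
      w1 (t • c) a = t • w1 c a ∧ w1 c (t • a) = t • w1 c a) ∧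
    (∀ (n : ℕ) (L : (Fin n → ℂ) →L[ℝ] (Fin N → ℂ)) (c : (Fin N → ℂ) →L[ℝ] ℝ) (a : Alt N k),
      (w1 c a).compContinuousLinearMap L = w1 (c.comp L) (a.compContinuousLinearMap L)) ∧
    (∀ (b c : (Fin N → ℂ) →L[ℝ] ℝ) (a : Alt N k), w1 b (w1 c a) = - w1 c (w1 b a)) ∧
    (∀ (c : (Fin N → ℂ) →L[ℝ] ℝ) (a : Alt N k), ‖w1 c a‖ ≤ (k + 1) * (‖c‖ * ‖a‖)) ∧
    (∀ m : WithTop ℕ∞,
      ContDiff ℝ m (fun p : ((Fin N → ℂ) →L[ℝ] ℝ) × Alt N k => w1 p.1 p.2)) ∧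
    -- evaluation on `v₀` when `a` kills `v₀`
    (∀ (c : (Fin N → ℂ) →L[ℝ] ℝ) (a : Alt N k) (v₀ : Fin N → ℂ),
      (∀ (v : Fin k → Fin N → ℂ) (i : Fin k), v i = v₀ → a v = 0) →
      (∀ v : Fin k → Fin N → ℂ, w1 c a (Matrix.vecCons v₀ v) = c v₀ * a v) ∧
      (c v₀ = 0 → ∀ (v : Fin (k + 1) → Fin N → ℂ) (i : Fin (k + 1)), v i = v₀ → w1 c a v = 0)) ∧
    -- basic forms
    (∀ (r n : ℕ) (X : Toric N r n) (V : Set (Fin N → ℂ))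
      (c : (Fin N → ℂ) → (Fin N → ℂ) →L[ℝ] ℝ) (a : (Fin N → ℂ) → Alt N k),
      (∀ z ∈ V, ∀ g : Fin r → ℂ, (∀ j, g j ≠ 0) → ∀ v, c (X.act g z) (X.act g v) = c z v) →
      (∀ z ∈ V, ∀ v, X.Vert z v → c z v = 0) →
      X.BasicOn V a → X.BasicOn V (fun z => w1 (c z) (a z)))

/-- LNK: relation between `wedge` and `w1`. -/
def LnkStmt : Prop :=
  (∀ (N k : ℕ), Even k → ∀ (K : Alt N k) (b c : (Fin N → ℂ) →L[ℝ] ℝ),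
    wedge K (cc2 b c) = w1 b (w1 c K)) ∧
  (∀ (N : ℕ) (b : Alt N 2), (wedge (cst N 1) b : Alt N (0 + 2)) = b)

/-- LBZ: Leibniz rules. -/
def LbzStmt : Prop :=
  (∀ (N k : ℕ) (h : (Fin N → ℂ) → ℝ) (K : (Fin N → ℂ) → Alt N k) (z : Fin N → ℂ),
    DifferentiableAt ℝ h z → DifferentiableAt ℝ K z →
    extDeriv (fun w => h w • K w) z = w1 (fderiv ℝ h z) (K z) + h z • extDeriv K z) ∧
  (∀ (N k : ℕ) (h : (Fin N → ℂ) → ℝ) (K : (Fin N → ℂ) → Alt N k) (z : Fin N → ℂ),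
    ContDiffAt ℝ 2 h z → DifferentiableAt ℝ K z →
    extDeriv (fun w => w1 (fderiv ℝ h w) (K w)) z = - w1 (fderiv ℝ h z) (extDeriv K z)) ∧
  (∀ (N k : ℕ), Even k → ∀ (K : (Fin N → ℂ) → Alt N k) (θ : (Fin N → ℂ) → Alt N 1)
    (z : Fin N → ℂ), DifferentiableAt ℝ K z → DifferentiableAt ℝ θ z → extDeriv K z = 0 →
    extDeriv (fun w => wedge (K w) (θ w)) z = wedge (K z) (extDeriv θ z))

/-- BSD: the exterior derivative of a basic form is basic; differential of an invariant function;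
composition with multiplication by `i`. -/
def BsdStmt : Prop :=
  ∀ (N r n : ℕ) (X : Toric N r n) (V : Set (Fin N → ℂ)), IsOpen V →
    (∀ w ∈ V, ∀ c : Fin r → ℂ, (∀ j, c j ≠ 0) → X.act c w ∈ V) →
    (∀ (k : ℕ) (η : (Fin N → ℂ) → Alt N k), DifferentiableOn ℝ η V → X.BasicOn V η →
      X.BasicOn V (extDeriv η)) ∧
    (∀ f : (Fin N → ℂ) → ℝ, DifferentiableOn ℝ f V →
      (∀ z ∈ V, ∀ c : Fin r → ℂ, (∀ j, c j ≠ 0) → f (X.act c z) = f z) →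
      (∀ z ∈ V, ∀ c : Fin r → ℂ, (∀ j, c j ≠ 0) → ∀ v,
        fderiv ℝ f (X.act c z) (X.act c v) = fderiv ℝ f z v) ∧
      (∀ z ∈ V, ∀ v, X.Vert z v → fderiv ℝ f z v = 0)) ∧
    (∀ (k : ℕ) (η : (Fin N → ℂ) → Alt N k) (u : ℂ), X.BasicOn V η →
      X.BasicOn V (fun z => (η z).compContinuousLinearMap (mulC N u)))

/-- LGB: `dd^c ψ` is basic if `ψ(c z) = ψ(z) + κ(c)`. -/
def LgbStmt : Prop :=
  ∀ (N r n : ℕ) (X : Toric N r n) (V : Set (Fin N → ℂ)), IsOpen V →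
    (∀ w ∈ V, ∀ c : Fin r → ℂ, (∀ j, c j ≠ 0) → X.act c w ∈ V) →
    ∀ (ψ : (Fin N → ℂ) → ℝ) (κ : (Fin r → ℂ) → ℝ),
      ContDiffOn ℝ ((⊤ : ℕ∞) : WithTop ℕ∞) ψ V →
      (∀ z ∈ V, ∀ c : Fin r → ℂ, (∀ j, c j ≠ 0) → ψ (X.act c z) = ψ z + κ c) →
      X.BasicOn V (ddc (fun w => cst N (ψ w))) ∧
      ContDiffOn ℝ ((⊤ : ℕ∞) : WithTop ℕ∞) (ddc (fun w => cst N (ψ w))) V

/-- KFM: the Kähler form of the example and its summands. -/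
def KfmStmt : Prop :=
  (∀ z ∈ X2.U, X2.kahler z = kL z + kH z + kY z) ∧
  (∀ z ∈ X2.U, (X2.kpow 1 z : Alt 7 2) = X2.kahler z) ∧
  (∀ η ∈ ({kL, kH, kY} : Set (E7 → Alt 7 2)), X2.BasicOn X2.U η ∧
    ContDiffOn ℝ ((⊤ : ℕ∞) : WithTop ℕ∞) η X2.U) ∧
  (∀ z ∈ U2', lp flop kH z = kH z ∧ lp flop kY z = kY z ∧
    lp flop kL z = ddc (fun w => cst 7 (Real.log (BB w))) z)

/-! ## Part B: integration -/

/-- FIB: `E7 = G × (chart)`. -/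
def FibStmt : Prop :=
  ∀ g : E7 → ℝ≥0∞, Measurable g →
    ∫⁻ z, g z = ∫⁻ c : Fin 3 → ℂ, ∫⁻ x : Fin 4 → ℂ, g (X2.act c (sig x)) *
      ENNReal.ofReal (‖c 0‖ ^ 2 * (‖c 0‖⁻¹ * ‖c 1‖) ^ 4 * ‖c 2‖ ^ 2)

/-- SHC: the multiplicative measure of a shell. -/
def ShcStmt : Prop :=
  ∃ κ : ℝ≥0∞, κ ≠ 0 ∧ κ ≠ ⊤ ∧ ∀ a : ℝ, 0 < a →
    ∫⁻ c : ℂ, (if 1 / 2 ≤ ‖c‖ ^ 2 * a ∧ ‖c‖ ^ 2 * a ≤ 2 then ENNReal.ofReal (‖c‖ ^ 2)⁻¹ else 0) = κ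

/-- DEN: bound for horizontal `8`-forms on the shell. -/
def DenStmt : Prop :=
  ∃ C : ℝ, 0 ≤ C ∧ ∀ (η : Alt 7 8), ∀ z ∈ Shell,
    (∀ (v : Fin 8 → E7) (i : Fin 8), X2.Vert z (v i) → η v = 0) →
    |η (fun i : Fin 8 => inc (stdb 4 8 i))| ≤ C * (‖z 1‖ * ‖z 4‖ * ‖z 6‖) ^ 2 * ‖η‖

/-- NIN: the integral over the chart is bounded by the integral over the shell. -/
def NinStmt : Prop :=
  ∃ C : ℝ≥0∞, C ≠ ⊤ ∧ ∀ η : E7 → Alt 7 8, ContinuousOn η U2' → X2.BasicOn U2' η →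
    ∫⁻ x, ENNReal.ofReal |chi η x| ≤ C * ∫⁻ z in Shell, ENNReal.ofReal ‖η z‖

/-- ISH: integrability on the shell. -/
def IshStmt : Prop :=
  IntegrableOn (fun z : E7 => (BB z)⁻¹) Shell ∧
  ∀ j : Fin 7, IntegrableOn (fun z : E7 => ‖z j‖⁻¹) Shell

/-- DCT: dominated convergence for integrals over `X`. -/
def DctStmt : Prop :=
  (∀ (η : E7 → Alt 7 8) (g : E7 → ℝ), ContinuousOn η U2' → X2.BasicOn U2' η →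
    IntegrableOn g Shell → (∀ z ∈ Shell ∩ U2', z 1 ≠ 0 → z 4 ≠ 0 → z 6 ≠ 0 → ‖η z‖ ≤ g z) →
    Integrable (chi η)) ∧
  (∀ (η : ℕ → E7 → Alt 7 8) (η' : E7 → Alt 7 8) (g : E7 → ℝ),
    (∀ i, ContinuousOn (η i) U2') → (∀ i, X2.BasicOn U2' (η i)) →
    ContinuousOn η' U2' → X2.BasicOn U2' η' → IntegrableOn g Shell →
    (∀ i, ∀ z ∈ Shell ∩ U2', z 1 ≠ 0 → z 4 ≠ 0 → z 6 ≠ 0 → ‖η i z‖ ≤ g z) →
    (∀ z ∈ Shell ∩ U2', z 1 ≠ 0 → z 4 ≠ 0 → z 6 ≠ 0 →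
      Tendsto (fun i => η i z) atTop (𝓝 (η' z))) →
    Tendsto (fun i => ∫ x, chi (η i) x) atTop (𝓝 (∫ x, chi η' x)))

/-- SK0: Stokes' theorem for compactly supported forms on `ℂ⁴`. -/
def Sk0Stmt : Prop :=
  ∀ Θ : (Fin 4 → ℂ) → Alt 4 7, ContDiff ℝ 1 Θ → HasCompactSupport Θ →
    ∫ x, extDeriv Θ x (stdb 4 8) = 0

/-- STK: Stokes' theorem on `X`. -/
def StkStmt : Prop :=
  ∀ Γ : E7 → Alt 7 7, ContDiffOn ℝ 1 Γ X2.U → X2.BasicOn X2.U Γ →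
    Integrable (chi (extDeriv Γ)) ∧ ∫ x, chi (extDeriv Γ) x = 0

/-- CTF: cut-off functions near `{BB = 0}`. -/
def CtfStmt : Prop :=
  ∃ (κ : ℕ → E7 → ℝ) (C : ℝ), ∀ i, InvFn (κ i) ∧
    (∃ ε > 0, ∀ z ∈ X2.U, rho z < ε → κ i z = 0) ∧
    (∀ z ∈ X2.U, |κ i z| ≤ 1) ∧
    (∀ z ∈ Shell ∩ U2', ‖fderiv ℝ (κ i) z‖ ≤ C * (√(BB z))⁻¹) ∧
    (∀ z ∈ U2', ∀ᶠ m in atTop, κ m z = 1 ∧ fderiv ℝ (κ m) z = 0)

/-- CUT: Stokes' theorem for forms with a singularity along `C × P¹`. -/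
def CutStmt : Prop :=
  ∀ (K : E7 → Alt 7 6) (θ : E7 → Alt 7 1) (C : ℝ), Clo K →
    ContDiffOn ℝ 1 θ U2' → X2.BasicOn U2' θ →
    (∀ z ∈ Shell ∩ U2', ‖θ z‖ ≤ C * (√(BB z))⁻¹) →
    (∀ z ∈ Shell ∩ U2', ‖extDeriv θ z‖ ≤ C * (BB z)⁻¹) →
    ∫ x, chi (fun z => wedge (K z) (extDeriv θ z)) x = 0

/-- BDF: pull-back by the flop (or the identity). -/
def BdfStmt : Prop :=
  ∀ (b : Bool) (k : ℕ) (η : E7 → Alt 7 k), X2.BasicOn X2.U η →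
    (ContinuousOn η X2.U → ∃ C : ℝ, ∀ z ∈ Shell ∩ U2', ‖lp (LL b) η z‖ ≤ C * (√(BB z))⁻¹ ^ k) ∧
    (∀ m : WithTop ℕ∞, ContDiffOn ℝ m η X2.U → ContDiffOn ℝ m (lp (LL b) η) U2') ∧
    X2.BasicOn U2' (lp (LL b) η) ∧
    (DifferentiableOn ℝ η X2.U → ∀ z ∈ U2', extDeriv (lp (LL b) η) z = lp (LL b) (extDeriv η) z)

/-- LGR: the form `d^c log ρ`. -/
def LgrStmt : Prop :=
  X2.BasicOn U2' dcr ∧ ContDiffOn ℝ ((⊤ : ℕ∞) : WithTop ℕ∞) dcr U2' ∧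
  (∃ C : ℝ, ∀ z ∈ Shell ∩ U2', ‖dcr z‖ ≤ C * (√(BB z))⁻¹ ∧ ‖extDeriv dcr z‖ ≤ C * (BB z)⁻¹) ∧
  ∀ z ∈ U2', extDeriv dcr z = kL z + lp flop kL z - kH z

/-- LIN: the integrands of `Lam` and `tri` are basic, continuous, integrable. -/
def LinStmt : Prop :=
  ∀ (b : Bool) (K : E7 → Alt 7 6), ContinuousOn K X2.U → X2.BasicOn X2.U K →
  (∀ η : E7 → Alt 7 2, ContinuousOn η X2.U → X2.BasicOn X2.U η →
    X2.BasicOn U2' (lamF b K η) ∧ ContinuousOn (lamF b K η) U2' ∧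
    (∃ C : ℝ, ∀ z ∈ Shell ∩ U2', ‖lamF b K η z‖ ≤ C * (BB z)⁻¹) ∧
    Integrable (chi (lamF b K η))) ∧
  (∀ a f g : E7 → ℝ, InvFn a → InvFn f → InvFn g →
    X2.BasicOn U2' (triF b K a f g) ∧ ContinuousOn (triF b K a f g) U2' ∧
    (∃ C : ℝ, ∀ z ∈ Shell ∩ U2', ‖triF b K a f g z‖ ≤ C * (BB z)⁻¹) ∧
    Integrable (chi (triF b K a f g)))

/-- CMP: `∫ K ∧ f^* ω_L = ∫ K ∧ (ω_H - ω_L)`. -/
def CmpStmt : Prop :=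
  ∀ K : E7 → Alt 7 6, Clo K → Lam true K kL = Lam false K kH - Lam false K kL

/-! ## Part C: positivity -/

/-- PSV: positivity of a `(3,3)`-form on `ℂ⁴` against `b ∧ b^c`. -/
def PsvStmt : Prop :=
  ∀ M : Alt 4 6, WPos 3 M → (∀ u : ℂ, ‖u‖ = 1 → ∀ v, M (fun j => u • v j) = M v) →
    (∀ b : (Fin 4 → ℂ) →L[ℝ] ℝ, 0 ≤ w1 b (w1 (cj b) M) (stdb 4 8)) ∧
    (∀ b c : (Fin 4 → ℂ) →L[ℝ] ℝ,
      w1 b (w1 (cj c) M) (stdb 4 8) = w1 c (w1 (cj b) M) (stdb 4 8)) ∧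
    (∀ b c : (Fin 4 → ℂ) →L[ℝ] ℝ,
      w1 (cj b) (w1 (cj (cj c)) M) (stdb 4 8) = w1 b (w1 (cj c) M) (stdb 4 8))

/-- KDC: decomposition of the Kähler form into forms `(i/2) l ∧ l̄` and of tangent vectors. -/
def KdcStmt : Prop :=
  ∃ (m : ℕ) (l : Fin m → E7 → E7 →L[ℂ] ℂ) (w : Fin m → E7 → E7) (i₀ i₁ : Fin m),
    (∀ z ∈ X2.U, X2.kahler z = (4 : ℝ) • ∑ i, cc2 (reL (l i z)) (imL (l i z))) ∧
    (∀ z ∈ X2.U, kL z = (4 : ℝ) • cc2 (reL (l i₀ z)) (imL (l i₀ z))) ∧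
    (∀ z ∈ X2.U, kY z = (4 : ℝ) • cc2 (reL (l i₁ z)) (imL (l i₁ z))) ∧
    (∀ z ∈ X2.U, ∀ v, X2.Vert z (v - ∑ i, l i z v • w i z)) ∧
    (∀ f : E7 → ℝ, InvFn f → ∃ C : ℝ, ∀ z ∈ X2.U, ∀ i, ∀ u : ℂ,
      |fderiv ℝ f z (u • w i z)| ≤ C * ‖u‖)

/-- ORD: pointwise bound of `df ∧ dg` by the Kähler form. -/
def OrdStmt : Prop :=
  ∀ f g : E7 → ℝ, InvFn f → InvFn g → ∃ C : ℝ, 0 ≤ C ∧
    ∀ (b : Bool) (K : E7 → Alt 7 6) (x : Fin 4 → ℂ), Pos3 K → sig x ∈ U2' →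
      |chi (triF b K (fun _ => 1) f g) x| ≤ C * chi (lamF b K X2.kahler) x

/-- MBD: mass bound for the pull-back of a closed positive form. -/
def MbdStmt : Prop :=
  ∀ K : E7 → Alt 7 6, Clo K → Pos3 K → ∀ b : Bool,
    Lam b K X2.kahler ≤ 2 * Lam false K X2.kahler ∧
    ∀ x, sig x ∈ U2' → 0 ≤ chi (lamF b K X2.kahler) x

/-- TRB: order zero bound for `tri`. -/
def TrbStmt : Prop :=
  ∀ f g : E7 → ℝ, InvFn f → InvFn g → ∃ C : ℝ, 0 ≤ C ∧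
    ∀ (Kp Km : E7 → Alt 7 6) (M : ℝ), Clo Kp → Clo Km → Pos3 Kp → Pos3 Km →
      Lam false Kp X2.kahler ≤ M → Lam false Km X2.kahler ≤ M →
      ∀ N : Set E7, (∀ z ∈ N ∩ U2', flop z ∈ N) → (∀ z ∈ X2.U, z ∉ N → Kp z = Km z) →
      ∀ (a : E7 → ℝ) (η : ℝ), InvFn a → (∀ z ∈ N ∩ X2.U, |a z| ≤ η) → 0 ≤ η →
      ∀ b : Bool, |tri b (fun z => Kp z - Km z) a f g| ≤ C * M * η

/-! ## Part D: the soft argument -/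

/-- TRS: algebraic rules and Stokes' theorem for `tri`. -/
def TrsStmt : Prop :=
  ∀ (b : Bool) (K : E7 → Alt 7 6), Clo K → ∀ a a' f f' g : E7 → ℝ, InvFn a → InvFn a' →
    InvFn f → InvFn f' → InvFn g →
    tri b K (fun z => a z + a' z) f g = tri b K a f g + tri b K a' f g ∧
    (∀ t : ℝ, tri b K (fun z => t * a z) f g = t * tri b K a f g) ∧
    tri b K a g f = - tri b K a f g ∧
    tri b K f a g = - tri b K a f g ∧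
    tri b K a (fun z => f z * f' z) g =
      tri b K (fun z => a z * f z) f' g + tri b K (fun z => a z * f' z) f g

/-- SPH: the functions `x₁, x₂, x₃` on the sphere and the area form. -/
def SphStmt : Prop :=
  (∀ i, InvFn (xx i)) ∧ (∀ z ∈ X2.U, ∑ i, xx i z ^ 2 = 1) ∧
  (∀ z ∈ X2.U, kL z = xx 0 z • cc2 (fderiv ℝ (xx 1) z) (fderiv ℝ (xx 2) z) +
    xx 1 z • cc2 (fderiv ℝ (xx 2) z) (fderiv ℝ (xx 0) z) +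
    xx 2 z • cc2 (fderiv ℝ (xx 0) z) (fderiv ℝ (xx 1) z)) ∧
  (∀ z ∈ X2.U, cc2 (fderiv ℝ (xx 1) z) (fderiv ℝ (xx 2) z) = xx 0 z • kL z ∧
    cc2 (fderiv ℝ (xx 2) z) (fderiv ℝ (xx 0) z) = xx 1 z • kL z ∧
    cc2 (fderiv ℝ (xx 0) z) (fderiv ℝ (xx 1) z) = xx 2 z • kL z)

/-- ALG: a linear functional on polynomials which is invariant under rotations and compatible with
`x₁² + x₂² + x₃² = 1` is determined by its value at `1`. -/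
def AlgStmt : Prop :=
  ∃ I : MvPolynomial (Fin 3) ℝ → ℝ, ∀ Φ : MvPolynomial (Fin 3) ℝ →ₗ[ℝ] ℝ,
    (∀ (i j : Fin 3) (h : MvPolynomial (Fin 3) ℝ),
      Φ (MvPolynomial.X i * MvPolynomial.pderiv j h - MvPolynomial.X j * MvPolynomial.pderiv i h)
        = 0) →
    (∀ h : MvPolynomial (Fin 3) ℝ, Φ ((∑ i, MvPolynomial.X i ^ 2) * h) = Φ h) →
    ∀ h, Φ h = I h * Φ 1

/-- PCS: forms from the sphere: `tri` is a multiple of the integral against `ω_L`. -/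
def PcsStmt : Prop :=
  ∀ P P' P'' : MvPolynomial (Fin 3) ℝ, ∃ c : ℝ,
    ∀ (b : Bool) (K : E7 → Alt 7 6), Clo K → ∀ χ χ' χ'' : E7 → ℝ,
      InvFn χ → InvFn χ' → InvFn χ'' →
      (∀ z ∈ U2', K z ≠ 0 → fderiv ℝ χ (LL b z) = 0 ∧ fderiv ℝ χ' (LL b z) = 0 ∧
        fderiv ℝ χ'' (LL b z) = 0) →
      tri b K (fun z => χ z * pol P z) (fun z => χ' z * pol P' z) (fun z => χ'' z * pol P'' z) =
        c * Lam b K (fun z => (χ z * χ' z * χ'' z) • kL z)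

/-- NBO: the neighbourhoods `Nb`. -/
def NboStmt : Prop :=
  ∀ (𝕂 : Set ℝ) (j : ℕ), IsOpen (Nb 𝕂 j) ∧
    (∀ z ∈ Nb 𝕂 j, ∀ c : Fin 3 → ℂ, (∀ i, c i ≠ 0) → X2.act c z ∈ Nb 𝕂 j) ∧
    (∀ z ∈ Nb 𝕂 j ∩ U2', flop z ∈ Nb 𝕂 j) ∧ (∀ j', j ≤ j' → Nb 𝕂 j' ⊆ Nb 𝕂 j)

/-- AP1: invariant functions are uniformly continuous near `C × 𝕂`. -/
def Ap1Stmt : Prop :=
  ∀ 𝕂 : Set ℝ, IsCompact 𝕂 → ∀ a : E7 → ℝ, InvFn a → ∀ η > 0, ∃ j : ℕ, ∀ z ∈ Nb 𝕂 j, ∀ y ∈ 𝕂,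
    ‖z 5 / z 6 - (y : ℂ)‖ < 1 / (j + 1) → |a z - a ![z 0, z 1, 0, 0, 1, (y : ℂ), 1]| ≤ η

/-- AP2: approximation on `C × 𝕂` by polynomials times locally constant functions. -/
def Ap2Stmt : Prop :=
  ∀ 𝕂 : Set ℝ, IsCompact 𝕂 → (∀ q : ℚ, (q : ℝ) ∉ 𝕂) → ∀ a : E7 → ℝ, InvFn a → ∀ η > 0,
    ∃ (m : ℕ) (P : Fin m → MvPolynomial (Fin 3) ℝ) (r r' : Fin m → ℚ), (∀ l, r l < r' l) ∧
      ∀ s t : ℂ, (s ≠ 0 ∨ t ≠ 0) → ∀ y ∈ 𝕂,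
        |a ![s, t, 0, 0, 1, (y : ℂ), 1] - ∑ l, (if (r l : ℝ) < y ∧ y < r' l then
          pol (P l) ![s, t, 0, 0, 1, (y : ℂ), 1] else 0)| ≤ η

/-- AP3: locally constant functions of `y ∈ 𝕂` come from smooth functions on `X`. -/
def Ap3Stmt : Prop :=
  ∀ 𝕂 : Set ℝ, IsCompact 𝕂 → (∀ q : ℚ, (q : ℝ) ∉ 𝕂) → ∀ r r' : ℚ, r < r' →
    ∃ χ : E7 → ℝ, LocC 𝕂 χ ∧ ∃ j : ℕ, ∀ z ∈ Nb 𝕂 j, ∀ y ∈ 𝕂,
      ‖z 5 / z 6 - (y : ℂ)‖ < 1 / (j + 1) → χ z = if (r : ℝ) < y ∧ y < r' then 1 else 0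

/-- APX: density of the products. -/
def ApxStmt : Prop :=
  ∀ 𝕂 : Set ℝ, IsCompact 𝕂 → (∀ q : ℚ, (q : ℝ) ∉ 𝕂) → ∀ a : E7 → ℝ, InvFn a → ∀ η > 0,
    ∃ (m : ℕ) (P : Fin m → MvPolynomial (Fin 3) ℝ) (χ : Fin m → E7 → ℝ), (∀ l, LocC 𝕂 (χ l)) ∧
      ∃ j : ℕ, ∀ z ∈ Nb 𝕂 j, |a z - ∑ l, χ l z * pol (P l) z| ≤ η

/-- the hypotheses on the approximating forms which are used -/
structure Appr (𝕂 : Set ℝ) (T : X2.Current 1) (Kp Km : ℕ → E7 → Alt 7 6) (M : ℝ) : Prop where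
  cp : ∀ i, Clo (Kp i)
  cm : ∀ i, Clo (Km i)
  pp : ∀ i, Pos3 (Kp i)
  pm : ∀ i, Pos3 (Km i)
  mp : ∀ i, Lam false (Kp i) X2.kahler ≤ M
  mm : ∀ i, Lam false (Km i) X2.kahler ≤ M
  conv : ∀ β : X2.Form 2, X2.Smooth β.1 →
    Tendsto (fun i => Lam false (fun z => Kp i z - Km i z) β.1) atTop (𝓝 (T β))
  supp : ∀ j : ℕ, ∀ᶠ i in atTop, ∀ z ∈ X2.U, z ∉ Nb 𝕂 j → Kp i z = Km i z

/-- SFT: the soft argument. -/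
def SftStmt : Prop :=
  ∀ (𝕂 : Set ℝ) (T : X2.Current 1) (Kp Km : ℕ → E7 → Alt 7 6) (M : ℝ), IsCompact 𝕂 →
    (∀ q : ℚ, (q : ℝ) ∉ 𝕂) → Appr 𝕂 T Kp Km M →
    (∀ β : X2.Form 2, (∃ χ : E7 → ℝ, InvFn χ ∧ ∀ z ∈ X2.U, β.1 z = χ z • kH z) → T β = 0) →
    ∀ a f g : E7 → ℝ, InvFn a → InvFn f → InvFn g →
      Tendsto (fun i => tri true (fun z => Kp i z - Km i z) a f g +
        tri false (fun z => Kp i z - Km i z) a f g) atTop (𝓝 0)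

/-- GEN: smooth `2`-forms are generated by `a df ∧ dg`. -/
def GenStmt : Prop :=
  ∀ β : X2.Form 2, X2.Smooth β.1 → ∃ (m : ℕ) (a f g : Fin m → E7 → ℝ),
    (∀ i, InvFn (a i) ∧ InvFn (f i) ∧ InvFn (g i)) ∧
    ∀ z ∈ X2.U, β.1 z = ∑ i, a i z • cc2 (fderiv ℝ (f i) z) (fderiv ℝ (g i) z)

/-- LNT: `Lam` in terms of `tri`. -/
def LntStmt : Prop :=
  ∀ (b : Bool) (K : E7 → Alt 7 6), ContinuousOn K X2.U → X2.BasicOn X2.U K →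
    ∀ (β : E7 → Alt 7 2) (m : ℕ) (a f g : Fin m → E7 → ℝ),
    (∀ i, InvFn (a i) ∧ InvFn (f i) ∧ InvFn (g i)) →
    (∀ z ∈ X2.U, β z = ∑ i, a i z • cc2 (fderiv ℝ (f i) z) (fderiv ℝ (g i) z)) →
    Lam b K β = ∑ i, tri b K (a i) (f i) (g i)

/-- CHG: the pull-back by the flop, change of variables. -/
def ChgStmt : Prop :=
  (∀ (K : X2.Form 6) (β : X2.Form 2), X2.fpair flopL K.1 β.1 = Lam true K.1 β.1) ∧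
  (∀ (K : E7 → Alt 7 6) (β : E7 → Alt 7 2), X2.pair K β = Lam false K β)

/-! ## Part E: the current -/

/-- KST: a fat Cantor set. -/
def KstStmt : Prop :=
  ∃ 𝕂 : Set ℝ, IsCompact 𝕂 ∧ (∀ q : ℚ, (q : ℝ) ∉ 𝕂) ∧ 0 < volume 𝕂

/-- TDF: the current `T` exists, is positive. -/
def TdfStmt : Prop :=
  ∀ 𝕂 : Set ℝ, IsCompact 𝕂 → ∃ T : X2.Current 1, IsT 𝕂 T ∧ X2.PosCur T

/-- TCL: `T` is closed. -/
def TclStmt : Prop :=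
  ∀ 𝕂 : Set ℝ, IsCompact 𝕂 → ∀ T : X2.Current 1, IsT 𝕂 T → X2.ClosedCur T

/-- TLL: the Lelong numbers of `T` are zero. -/
def TllStmt : Prop :=
  ∀ 𝕂 : Set ℝ, IsCompact 𝕂 → ∀ T : X2.Current 1, IsT 𝕂 T → ∀ u ∈ X2.U, X2.LelongZero T u

/-- TSP: the support of `T`, `T` kills `ω_H`. -/
def TspStmt : Prop :=
  ∀ 𝕂 : Set ℝ, IsCompact 𝕂 → ∀ T : X2.Current 1, IsT 𝕂 T →
    (∀ j, X2.supp T ⊆ Nb 𝕂 j) ∧
    (∀ β : X2.Form 2, (∃ χ : E7 → ℝ, InvFn χ ∧ ∀ z ∈ X2.U, β.1 z = χ z • kH z) → T β = 0)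

/-- TNP: `-T` is not positive. -/
def TnpStmt : Prop :=
  ∀ 𝕂 : Set ℝ, IsCompact 𝕂 → 0 < volume 𝕂 → ∀ T : X2.Current 1, IsT 𝕂 T → ¬ X2.PosCur (-T)

/-- TDS: positive closed currents are DSH (here for bidimension `(1, 1)` on `X`). -/
def TdsStmt : Prop :=
  ∀ T : X2.Current 1, X2.PosCur T → X2.ClosedCur T → X2.Dsh T

/-- FIN: the theorem. -/
def FinStmt : Prop :=
  ∃ T : X2.Current 1, ∀ w : Bool, X2.Positive w T ∧ X2.ClosedCur T ∧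
    (∀ u ∈ X2.U, X2.LelongZero T u) ∧ X2.Sharp w flopL T (-T) ∧ ¬ X2.Positive w (-T)

end Pool.Agent.SIU
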