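import Pool.Agent.Helper15_SIU.Lib3

/-!
# MP_021b97_an: weak and strong positivity
-/

set_option autoImplicit false

open MeasureTheory Filter Topology

namespace Pool.Agent.SIU.H15

open Pool.Agent.SIU

/-- the real matrix of a complex matrix -/
noncomputable def rm {q : ℕ} (C : Matrix (Fin q) (Fin q) ℂ) : Matrix (Fin q × Fin 2) (Fin q × Fin 2) ℝ :=
  fun i j => (Algebra.leftMulMatrix Complex.basisOneI (C i.1 j.1)) i.2 j.2

theorem det_rm {q : ℕ} (C : Matrix (Fin q) (Fin q) ℂ) : (rm C).det = Complex.normSq C.det := by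
  have h := Matrix.det_det C (Algebra.leftMulMatrix Complex.basisOneI : ℂ →ₐ[ℝ] _).toRingHom
  have h2 : (Algebra.norm ℝ C.det) = ((Algebra.leftMulMatrix Complex.basisOneI : ℂ →ₐ[ℝ] _).toRingHom
      C.det).det := Algebra.norm_eq_matrix_det Complex.basisOneI C.det
  rw [← Algebra.norm_complex_apply, h2, h]
  rfl

/-- the index equivalence -/
def eq2 (q : ℕ) : Fin q × Fin 2 ≃ Fin (2 * q) :=
  (finProdFinEquiv (m := q) (n := 2)).trans (finCongr (mul_comm q 2))

theorem eq2_val (q : ℕ) (x : Fin q × Fin 2) : (eq2 q x : ℕ) = x.2 + 2 * x.1 := rfl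

theorem det_cvec {N q : ℕ} (L : ℕ → ((Fin N → ℂ) →ₗ[ℂ] ℂ)) (v : ℕ → Fin N → ℂ) :
    Matrix.det (fun i j : Fin (2 * q) =>
      if (i : ℕ) % 2 = 0 then (L ((i : ℕ) / 2) (cvec v (2 * q) j)).re
      else (L ((i : ℕ) / 2) (cvec v (2 * q) j)).im) =
    Complex.normSq (Matrix.det (fun a b : Fin q => L a (v b))) := by
  rw [← det_rm, ← Matrix.det_submatrix_equiv_self (eq2 q)]
  congr 1
  ext ⟨a, s⟩ ⟨b, t⟩
  rw [Matrix.submatrix_apply]
  unfold rm
  rw [Algebra.leftMulMatrix_complex]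
  have h1 : ((eq2 q (a, s) : Fin (2 * q)) : ℕ) = s + 2 * a := rfl
  have h2 : ((eq2 q (b, t) : Fin (2 * q)) : ℕ) = t + 2 * b := rfl
  unfold cvec
  rw [h1, h2]
  have ha : ((s : ℕ) + 2 * a) / 2 = a := by omega
  have hb : ((t : ℕ) + 2 * b) / 2 = b := by omega
  have hs : ((s : ℕ) + 2 * a) % 2 = s := by omega
  have ht : ((t : ℕ) + 2 * b) % 2 = t := by omega
  rw [ha, hb, hs, ht]
  fin_cases s <;> fin_cases t <;> simp

theorem det_rot {N q : ℕ} (L : ℕ → ((Fin N → ℂ) →ₗ[ℂ] ℂ)) (v : Fin (2 * q) → Fin N → ℂ) (u : ℂ) :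
    Matrix.det (fun i j : Fin (2 * q) =>
      if (i : ℕ) % 2 = 0 then (L ((i : ℕ) / 2) (u • v j)).re
      else (L ((i : ℕ) / 2) (u • v j)).im) =
    Complex.normSq u ^ q * Matrix.det (fun i j : Fin (2 * q) =>
      if (i : ℕ) % 2 = 0 then (L ((i : ℕ) / 2) (v j)).re
      else (L ((i : ℕ) / 2) (v j)).im) := by
  have h0 : (rm (u • (1 : Matrix (Fin q) (Fin q) ℂ))).det = Complex.normSq u ^ q := by
    rw [det_rm, Matrix.det_smul, Matrix.det_one, mul_one, Fintype.card_fin, map_pow]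
  rw [← h0, ← Matrix.det_submatrix_equiv_self (eq2 q),
    ← Matrix.det_submatrix_equiv_self (eq2 q) (fun i j : Fin (2 * q) =>
      if (i : ℕ) % 2 = 0 then (L ((i : ℕ) / 2) (v j)).re
      else (L ((i : ℕ) / 2) (v j)).im), ← Matrix.det_mul]
  congr 1
  ext ⟨a, s⟩ ⟨b, t⟩
  rw [Matrix.mul_apply, Fintype.sum_prod_type, Finset.sum_eq_single a]
  · rw [Fin.sum_univ_two]
    simp only [Matrix.submatrix_apply]
    unfold rm
    rw [Algebra.leftMulMatrix_complex]
    have h1 : ∀ s : Fin 2, ((eq2 q (a, s) : Fin (2 * q)) : ℕ) = s + 2 * a := fun s => rfl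
    have ha : ∀ s : Fin 2, ((s : ℕ) + 2 * a) / 2 = a := by intro s; omega
    have hs : ∀ s : Fin 2, ((s : ℕ) + 2 * a) % 2 = s := by intro s; omega
    simp only [h1, ha, hs]
    fin_cases s <;> simp <;> ring
  · intro c _ hca
    rw [Fin.sum_univ_two]
    unfold rm
    simp [Matrix.one_apply, Ne.symm hca]
  · intro h
    exact absurd (Finset.mem_univ a) h

theorem wpos_of_spos {N q : ℕ} {b : Alt N (2 * q)} (h : SPos q b) : WPos q b := by
  obtain ⟨m, c, L, hc, hb⟩ := h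
  intro v
  rw [hb]
  refine Finset.sum_nonneg fun l _ => mul_nonneg (hc l) ?_
  rw [det_cvec]
  exact Complex.normSq_nonneg _

theorem rot_of_spos {N q : ℕ} {b : Alt N (2 * q)} (h : SPos q b) (u : ℂ) (hu : ‖u‖ = 1)
    (v : Fin (2 * q) → Fin N → ℂ) : b (fun i => u • v i) = b v := by
  obtain ⟨m, c, L, hc, hb⟩ := h
  rw [hb, hb]
  refine Finset.sum_congr rfl fun l _ => ?_
  rw [det_rot, Complex.normSq_eq_norm_sq, hu]
  simp

/-- a strongly positive form is weakly positive -/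
theorem fpos_of_spos {N q : ℕ} {b : Alt N (2 * q)} (h : SPos q b) (w : Bool) : FPos w q b := by
  cases w
  · exact h
  · exact ⟨wpos_of_spos h, fun u hu v => rot_of_spos h u hu v⟩

theorem wpos_of_fpos {N q : ℕ} {b : Alt N (2 * q)} {w : Bool} (h : FPos w q b) : WPos q b := by
  cases w
  · exact wpos_of_spos h
  · exact (show WPos q b ∧ _ from h).1

/-- strongly positive currents are weakly positive -/
theorem posCur_of {N r n q : ℕ} (X : Toric N r n) (T : X.Current q) {w : Bool}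
    (h : X.Positive w T) : X.PosCur T :=
  ⟨h.1, fun β hβ => h.2.2 β fun z hz => fpos_of_spos (hβ z hz) _⟩

end Pool.Agent.SIU.H15
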