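import Pool.Agent.Helper15_SIU.Defs

/-!
# MP_021b97_an: definitions for the example `X = P(O ⊕ O(-1) ⊕ O(-1)) × P¹` and its flop

Homogeneous coordinates `(s, t, p, q, v, y₀, y₁) = (z 0, …, z 6)`;
`(λ, κ, γ)` acts by `(λ s, λ t, λ⁻¹ κ p, λ⁻¹ κ q, κ v, γ y₀, γ y₁)`;
the flop exchanges `(s, t)` and `(p, q)`.
-/

set_option autoImplicit false

open MeasureTheory Filter Topology
open scoped ENNReal

namespace Pool.Agent.SIU

/-! ## Weak positivity (as used in the modules) -/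

namespace Toric

variable {N r n : ℕ} (X : Toric N r n)

/-- Weakly positive currents of bidimension `(q, q)`. -/
def PosCur {q : ℕ} (T : X.Current q) : Prop :=
  X.IsBidim T ∧ ∀ β : X.Form (2 * q), (∀ z ∈ X.U, SPos q (β.1 z)) → 0 ≤ T β

/-- the DSH norm of `T` is at most `c` (weak positivity) -/
def DshLE : {q : ℕ} → X.Current q → ℝ → Prop
  | 0, T, c => ∃ T₁ T₂ : X.Current 0, T = T₁ - T₂ ∧ X.PosCur T₁ ∧ X.PosCur T₂ ∧
      ∃ c₁ c₂ : ℝ, X.MassLE T₁ c₁ ∧ X.MassLE T₂ c₂ ∧ c₁ + c₂ ≤ c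
  | q + 1, T, c => ∃ (T₁ T₂ : X.Current (q + 1)) (P₁ M₁ P₂ M₂ : X.Current q), T = T₁ - T₂ ∧
      X.PosCur T₁ ∧ X.PosCur T₂ ∧ X.PosCur P₁ ∧ X.PosCur M₁ ∧ X.PosCur P₂ ∧ X.PosCur M₂ ∧
      X.ClosedCur P₁ ∧ X.ClosedCur M₁ ∧ X.ClosedCur P₂ ∧ X.ClosedCur M₂ ∧
      X.IsDdc T₁ (P₁ - M₁) ∧ X.IsDdc T₂ (P₂ - M₂) ∧
      ∃ c₁ c₂ c₃ c₄ : ℝ, X.MassLE T₁ c₁ ∧ X.MassLE T₂ c₂ ∧ X.MassLE P₁ c₃ ∧ X.MassLE P₂ c₄ ∧
        c₁ + c₂ + c₃ + c₄ ≤ c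

/-- DSH currents (weak positivity) -/
def Dsh {q : ℕ} (T : X.Current q) : Prop := ∃ c : ℝ, X.DshLE T c

end Toric

/-! ## General small definitions -/

/-- `c ∧ a` for a covector `c`:
`(c ∧ a)(v₀, …, v_k) = ∑ i, (-1)^i c (v_i) a (v₀, …, v̂_i, …, v_k)` -/
noncomputable def w1 {N k : ℕ} (c : (Fin N → ℂ) →L[ℝ] ℝ) (a : Alt N k) : Alt N (k + 1) :=
  ContinuousAlternatingMap.alternatizeUncurryFin (c.smulRight a)

/-- the 2-form `b ∧ c` for covectors -/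
noncomputable def cc2 {N : ℕ} (b c : (Fin N → ℂ) →L[ℝ] ℝ) : Alt N 2 := w1 b (w1 c (cst N 1))

/-- `c^c = - c ∘ J` for a covector `c` -/
noncomputable def cj {N : ℕ} (c : (Fin N → ℂ) →L[ℝ] ℝ) : (Fin N → ℂ) →L[ℝ] ℝ :=
  - c.comp (mulC N Complex.I)

/-- real and imaginary part of a complex linear functional -/
noncomputable def reL {N : ℕ} (l : (Fin N → ℂ) →L[ℂ] ℂ) : (Fin N → ℂ) →L[ℝ] ℝ :=
  Complex.reCLM.comp (l.restrictScalars ℝ)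

/-- imaginary part of a complex linear functional -/
noncomputable def imL {N : ℕ} (l : (Fin N → ℂ) →L[ℂ] ℂ) : (Fin N → ℂ) →L[ℝ] ℝ :=
  Complex.imCLM.comp (l.restrictScalars ℝ)

/-- pull-back of a field of forms by a complex linear map -/
noncomputable def lp {N k : ℕ} (L : (Fin N → ℂ) →L[ℂ] (Fin N → ℂ)) (η : (Fin N → ℂ) → Alt N k)
    (z : Fin N → ℂ) : Alt N k :=
  (η (L z)).compContinuousLinearMap (L.restrictScalars ℝ)

/-! ## The example -/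

/-- homogeneous coordinates -/
abbrev E7 : Type := Fin 7 → ℂ

/-- `|s|² + |t|²` -/
noncomputable def AA (z : E7) : ℝ := ‖z 0‖ ^ 2 + ‖z 1‖ ^ 2

/-- `|p|² + |q|²` -/
noncomputable def BB (z : E7) : ℝ := ‖z 2‖ ^ 2 + ‖z 3‖ ^ 2

/-- `(|s|² + |t|²) (|p|² + |q|²) + |v|²` -/
noncomputable def DD (z : E7) : ℝ := (‖z 0‖ ^ 2 + ‖z 1‖ ^ 2) * (‖z 2‖ ^ 2 + ‖z 3‖ ^ 2) + ‖z 4‖ ^ 2

/-- `|y₀|² + |y₁|²` -/
noncomputable def YY (z : E7) : ℝ := ‖z 5‖ ^ 2 + ‖z 6‖ ^ 2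

/-- `W × P¹`, `W = P(O ⊕ O(-1) ⊕ O(-1))` over `P¹` -/
noncomputable def X2 : Toric 7 3 4 where
  wt := ![![1, 0, 0], ![1, 0, 0], ![-1, 1, 0], ![-1, 1, 0], ![0, 1, 0], ![0, 0, 1], ![0, 0, 1]]
  blk := ![0, 0, 1, 1, 1, 2, 2]
  one := ![1, 4, 6]
  crd := ![0, 2, 3, 5]
  A := ![AA, DD, YY]

/-- the flop, in homogeneous coordinates -/
noncomputable def flop : E7 →L[ℂ] E7 :=
  ContinuousLinearMap.pi fun i => ContinuousLinearMap.proj ((![2, 3, 0, 1, 4, 5, 6] : Fin 7 → Fin 7) i)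

/-- the lift of the flop over the affine chart `(s, p, q, y)` -/
noncomputable def flopL (x : Fin 4 → ℂ) : E7 := ![x 1, x 2, x 0, 1, 1, x 3, 1]

/-- the chart `(s, p, q, y) ↦ (s, 1, p, q, 1, y, 1)` -/
noncomputable def sig (x : Fin 4 → ℂ) : E7 := ![x 0, 1, x 1, x 2, 1, x 3, 1]

/-- derivative of the chart -/
noncomputable def inc : (Fin 4 → ℂ) →L[ℂ] E7 :=
  ContinuousLinearMap.pi ![ContinuousLinearMap.proj 0, 0, ContinuousLinearMap.proj 1,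
    ContinuousLinearMap.proj 2, 0, ContinuousLinearMap.proj 3, 0]

/-- the set where the flop is defined: the complement of the curve `C = {p = q = 0}` (times `P¹`) -/
noncomputable def U2' : Set E7 := {z | z ∈ X2.U ∧ BB z ≠ 0}

/-- a compact subset of `U` which meets all `G`-orbits -/
noncomputable def Shell : Set E7 :=
  {z | 1 / 2 ≤ AA z ∧ AA z ≤ 2 ∧ 1 / 2 ≤ DD z ∧ DD z ≤ 2 ∧ 1 / 2 ≤ YY z ∧ YY z ≤ 2}

/-- `ρ = A B / D`, an invariant function, invariant under the flop, `{ρ = 0} = C × P¹` -/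
noncomputable def rho (z : E7) : ℝ := AA z * BB z / DD z

/-- value of an `8`-form on the standard basis of the chart at the point `x` -/
noncomputable def chi (η : E7 → Alt 7 8) (x : Fin 4 → ℂ) : ℝ :=
  η (sig x) (fun i : Fin 8 => inc (stdb 4 8 i))

/-- the identity and the flop -/
noncomputable def LL : Bool → E7 →L[ℂ] E7
  | false => ContinuousLinearMap.id ℂ E7
  | true => flop

/-- `K ∧ η` (`b = false`), `K ∧ f^* η` (`b = true`) -/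
noncomputable def lamF (b : Bool) (K : E7 → Alt 7 6) (η : E7 → Alt 7 2) (z : E7) : Alt 7 8 :=
  wedge (K z) (lp (LL b) η z)

/-- `∫_X K ∧ η` (`b = false`), `∫_X K ∧ f^* η` (`b = true`) -/
noncomputable def Lam (b : Bool) (K : E7 → Alt 7 6) (η : E7 → Alt 7 2) : ℝ :=
  ∫ x, chi (lamF b K η) x

/-- `a df ∧ dg ∧ K` (`b = false`) and `f^*(a df ∧ dg) ∧ K` (`b = true`) -/
noncomputable def triF (b : Bool) (K : E7 → Alt 7 6) (a f g : E7 → ℝ) (z : E7) : Alt 7 8 :=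
  a (LL b z) • w1 (fderiv ℝ (fun w => f (LL b w)) z)
    (w1 (fderiv ℝ (fun w => g (LL b w)) z) (K z))

/-- `∫_X K ∧ a df ∧ dg` (`b = false`) and `∫_X K ∧ f^*(a df ∧ dg)` (`b = true`) -/
noncomputable def tri (b : Bool) (K : E7 → Alt 7 6) (a f g : E7 → ℝ) : ℝ :=
  ∫ x, chi (triF b K a f g) x

/-- smooth functions on `X` -/
def InvFn (f : E7 → ℝ) : Prop :=
  ContDiffOn ℝ ((⊤ : ℕ∞) : WithTop ℕ∞) f X2.U ∧
    ∀ z ∈ X2.U, ∀ c : Fin 3 → ℂ, (∀ j, c j ≠ 0) → f (X2.act c z) = f z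

/-- closed `C¹` forms of degree `6` on `X` -/
def Clo (K : E7 → Alt 7 6) : Prop :=
  ContDiffOn ℝ 1 K X2.U ∧ X2.BasicOn X2.U K ∧ ∀ z ∈ X2.U, extDeriv K z = 0

/-- positive forms of bidegree `(3, 3)` -/
def Pos3 (K : E7 → Alt 7 6) : Prop :=
  ∀ z ∈ X2.U, WPos 3 (K z) ∧ ∀ u : ℂ, ‖u‖ = 1 → ∀ v, K z (fun j => u • v j) = K z v

/-- the summands of the Kähler form -/
noncomputable def kL (z : E7) : Alt 7 2 := ddc (fun w => cst 7 (Real.log (AA w))) z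
/-- the summands of the Kähler form -/
noncomputable def kH (z : E7) : Alt 7 2 := ddc (fun w => cst 7 (Real.log (DD w))) z
/-- the summands of the Kähler form -/
noncomputable def kY (z : E7) : Alt 7 2 := ddc (fun w => cst 7 (Real.log (YY w))) z

/-- `d^c log ρ` -/
noncomputable def dcr (z : E7) : Alt 7 1 :=
  -(extDeriv (fun w => cst 7 (Real.log (rho w))) z).compContinuousLinearMap (mulC 7 Complex.I)

/-- the neighbourhoods of `C × 𝕂` -/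
def Nb (𝕂 : Set ℝ) (j : ℕ) : Set E7 :=
  {z | z ∈ X2.U ∧ rho z < 1 / (j + 1) ∧ z 6 ≠ 0 ∧ ∃ y ∈ 𝕂, ‖z 5 / z 6 - (y : ℂ)‖ < 1 / (j + 1)}

/-- `x₁ = 2 Re (s t̄) / A`, `x₂ = 2 Im (s t̄) / A`, `x₃ = (|t|² - |s|²) / A`
(the coordinates of the sphere `P¹`) -/
noncomputable def xx : Fin 3 → E7 → ℝ :=
  ![fun z => 2 * (z 0 * (starRingEnd ℂ) (z 1)).re / AA z,
    fun z => 2 * (z 0 * (starRingEnd ℂ) (z 1)).im / AA z,
    fun z => (‖z 1‖ ^ 2 - ‖z 0‖ ^ 2) / AA z]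

/-- polynomial functions on the sphere -/
noncomputable def pol (P : MvPolynomial (Fin 3) ℝ) (z : E7) : ℝ :=
  MvPolynomial.eval (fun i => xx i z) P

/-- functions of `y = (z 5, z 6)` which are locally constant near `C × 𝕂` -/
def LocC (𝕂 : Set ℝ) (χ : E7 → ℝ) : Prop :=
  InvFn χ ∧ (∀ z w : E7, z 5 = w 5 → z 6 = w 6 → χ z = χ w) ∧
    ∃ j, ∀ z ∈ Nb 𝕂 j, fderiv ℝ χ z = 0

/-- the points of `C × 𝕂` -/
noncomputable def pt (ζ : ℂ) (y : ℝ) : E7 := ![ζ, 1, 0, 0, 1, (y : ℂ), 1]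

/-- the first basis vector -/
noncomputable def e0 : E7 := ![1, 0, 0, 0, 0, 0, 0]

/-- `T = [C] ⊗ (Lebesgue measure on 𝕂)` -/
def IsT (𝕂 : Set ℝ) (T : X2.Current 1) : Prop :=
  ∀ β : X2.Form (2 * 1), T β = ∫ y in 𝕂, ∫ ζ : ℂ, β.1 (pt ζ y) (cvec (fun _ => e0) (2 * 1))

end Pool.Agent.SIU
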