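import Pool.Agent.Helper15_SIU.W
import Pool.Agent.Helper43_SIU.Tds
import Pool.Agent.Helper68_SIU.TDF

/-!
# MP_021b97_an: positive closed currents are DSH (both notions of positivity), positivity of `T`
-/

set_option autoImplicit false

open MeasureTheory Filter Topology

namespace Pool.Agent.SIU.H15

open Pool.Agent.SIU

theorem tdsW (hbsd : BsdStmt) (wb : Bool) (T : X2.Current 1) (hpos : X2.Positive wb T)
    (hcl : X2.ClosedCur T) : X2.IsDsh wb T := by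
  classical
  have zpos : ∀ q, X2.Positive wb (0 : X2.Current q) :=
    fun q => ⟨fun _ _ _ _ _ => rfl, ⟨∅, 0, isCompact_empty, Set.empty_subset _, fun β c _ => by
      rw [zero_mul]
      exact (abs_zero (α := ℝ)).le⟩, fun _ _ => le_refl _⟩
  have zcl : ∀ q, X2.ClosedCur (0 : X2.Current q) := fun q k hk η hη β hβ => rfl
  have hact : ∀ w ∈ X2.U, ∀ c : Fin 3 → ℂ, (∀ j, c j ≠ 0) → X2.act c w ∈ X2.U :=
    fun w hw c hc => (act_mem_U hc w).mpr hw
  obtain ⟨hb1, -, hb3⟩ := hbsd 7 3 4 X2 X2.U isOpen_U hact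
  obtain ⟨c, hc⟩ : ∃ c, X2.MassLE T c := by
    by_cases h : ∃ β : X2.Form (2 * 1), ∀ z ∈ X2.U, β.1 z = X2.kpow 1 z
    · obtain ⟨β0, h0⟩ := h
      refine ⟨T β0, fun β hβ => ?_⟩
      have : β = β0 := Subtype.ext (funext fun z => by
        by_cases hz : z ∈ X2.U
        · rw [hβ z hz, h0 z hz]
        · rw [β.2.2.2 z hz, β0.2.2.2 z hz])
      rw [this]
    · exact ⟨0, fun β hβ => absurd ⟨β, hβ⟩ h⟩
  have hddc : X2.IsDdc (q := 0) T (0 - 0) := by
    refine ⟨fun _ _ _ _ _ => rfl, ?_⟩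
    intro φ hφ _ β hβ
    rw [sub_zero]
    show (0 : ℝ) = T β
    symm
    -- the primitive
    let θ : E7 → Alt 7 (2 * 0 + 1) := fun w =>
      (-1 : ℝ) • (extDeriv φ.1 w).compContinuousLinearMap (mulC 7 Complex.I)
    have hθs : X2.Smooth θ := by
      have := H43.smooth_compJ (H43.smooth_extDeriv hφ)
      exact ContDiffOn.const_smul (-1 : ℝ) this
    have hφd : DifferentiableOn ℝ φ.1 X2.U := ContDiffOn.differentiableOn hφ (by simp)
    have hθb : X2.BasicOn X2.U (fun w =>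
        (extDeriv φ.1 w).compContinuousLinearMap (mulC 7 Complex.I)) :=
      hb3 _ _ Complex.I (hb1 _ _ hφd φ.2.2.1)
    let η : X2.Form (2 * 0 + 1) := ⟨fun w => if w ∈ X2.U then θ w else 0, by
      refine ⟨?_, ⟨?_, ?_⟩, ?_⟩
      · refine (ContDiffOn.continuousOn hθs).congr ?_
        intro w hw
        exact if_pos hw
      · intro z hz c hc v
        show (if X2.act c z ∈ X2.U then θ (X2.act c z) else 0) (fun i => X2.act c (v i)) =
          (if z ∈ X2.U then θ z else 0) v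
        rw [if_pos hz, if_pos (hact z hz c hc)]
        exact congrArg (fun t : ℝ => (-1 : ℝ) • t) (hθb.1 z hz c hc v)
      · intro z hz v i hv
        show (if z ∈ X2.U then θ z else 0) v = 0
        rw [if_pos hz]
        exact (congrArg (fun t : ℝ => (-1 : ℝ) • t) (hθb.2 z hz v i hv)).trans (smul_zero _)
      · intro z hz
        exact if_neg hz⟩
    refine hcl (2 * 0 + 1) rfl η ?_ β ?_
    · refine ContDiffOn.congr hθs ?_
      intro w hw
      exact if_pos hw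
    · intro z hz v
      have he : η.1 =ᶠ[𝓝 z] θ := by
        filter_upwards [isOpen_U.mem_nhds hz] with w hw
        exact if_pos hw
      rw [he.extDeriv_eq]
      have h2 : extDeriv θ z = (-1 : ℝ) • extDeriv (fun w =>
          (extDeriv φ.1 w).compContinuousLinearMap (mulC 7 Complex.I)) z :=
        extDeriv_smul (-1 : ℝ) (fun w =>
          (extDeriv φ.1 w).compContinuousLinearMap (mulC 7 Complex.I))
      rw [h2, hβ z hz, ddc, neg_smul, one_smul]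
      rfl
  refine ⟨c, T, 0, 0, 0, 0, 0, (sub_zero T).symm, hpos, zpos _, zpos _, zpos _, zpos _, zpos _,
    zcl _, zcl _, zcl _, zcl _, hddc, ?_, c, 0, 0, 0, hc, ?_, ?_, ?_, ?_⟩
  · refine ⟨fun _ _ _ _ _ => rfl, ?_⟩
    intro φ hφ _ β hβ
    rw [sub_zero]
    rfl
  · exact fun β hβ => le_refl _
  · exact fun β hβ => le_refl _
  · exact fun β hβ => le_refl _
  · simp



theorem ptW (ζ : ℂ) (y : ℝ) : pt ζ y ∈ X2.U := by
  rw [mem_U]
  simp [pt]

open H68 in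
/-- the value of `β` on `(e₀, i e₀)` at the points of the curve decays like `(1+|ζ|²)⁻²` -/
theorem bound_ptW (β : E7 → Alt 7 2) (hb : X2.BasicOn X2.U β) (C : ℝ)
    (hC : ∀ z ∈ Shell, ‖β z‖ ≤ C) (ζ : ℂ) (y : ℝ) :
      |β (pt ζ y) (cvec (fun _ => e0) (2 * 1))| ≤ max C 0 * ((1 + ‖ζ‖ ^ 2)⁻¹) ^ 2 := by
  set A : ℝ := 1 + ‖ζ‖ ^ 2 with hA
  have hA1 : 1 ≤ A := by nlinarith [sq_nonneg ‖ζ‖]
  have hA0 : 0 < A := by linarith
  set Y : ℝ := 1 + y ^ 2 with hY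
  have hY0 : 0 < Y := by nlinarith [sq_nonneg y]
  set a : ℂ := (((√A)⁻¹ : ℝ) : ℂ) with ha
  set d : ℂ := (((√Y)⁻¹ : ℝ) : ℂ) with hd
  have hsA : 0 < √A := Real.sqrt_pos.mpr hA0
  have hsY : 0 < √Y := Real.sqrt_pos.mpr hY0
  have ha0 : a ≠ 0 := by rw [ha]; exact_mod_cast (inv_pos.mpr hsA).ne'
  have hd0 : d ≠ 0 := by rw [hd]; exact_mod_cast (inv_pos.mpr hsY).ne'
  have hna : ‖a‖ ^ 2 = A⁻¹ := by
    rw [ha, Complex.norm_real, Real.norm_of_nonneg (inv_pos.mpr hsA).le, inv_pow,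
      Real.sq_sqrt hA0.le]
  have hnd : ‖d‖ ^ 2 = Y⁻¹ := by
    rw [hd, Complex.norm_real, Real.norm_of_nonneg (inv_pos.mpr hsY).le, inv_pow,
      Real.sq_sqrt hY0.le]
  set c : Fin 3 → ℂ := ![a, 1, d] with hcdef
  have hc0 : ∀ j, c j ≠ 0 := by
    intro j
    fin_cases j
    · exact ha0
    · exact one_ne_zero
    · exact hd0
  set w : E7 := X2.act c (pt ζ y) with hw
  have hwS : w ∈ Shell := by
    have e1 : AA w = 1 := by
      rw [hw, AA_act]
      have : AA (pt ζ y) = A := by simp [AA, pt, hA]; ring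
      rw [this]
      show ‖a‖ ^ 2 * A = 1
      rw [hna]
      exact inv_mul_cancel₀ hA0.ne'
    have e2 : DD w = 1 := by
      rw [hw, DD_act hc0]
      simp [DD, pt, hcdef]
    have e3 : YY w = 1 := by
      rw [hw, YY_act]
      have : YY (pt ζ y) = Y := by simp [YY, pt, hY]; ring
      rw [this]
      show ‖d‖ ^ 2 * Y = 1
      rw [hnd]
      exact inv_mul_cancel₀ hY0.ne'
    unfold Shell
    show 1 / 2 ≤ _ ∧ _ ≤ 2 ∧ 1 / 2 ≤ _ ∧ _ ≤ 2 ∧ 1 / 2 ≤ _ ∧ _ ≤ 2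
    rw [e1, e2, e3]
    norm_num
  have hwU : w ∈ X2.U := Shell_subset hwS
  -- invariance
  have h1 : β (pt ζ y) (cvec (fun _ => e0) (2 * 1)) = A⁻¹ * β w ![e0, Complex.I • e0] := by
    have hi := hb.1 (pt ζ y) (pt_mem_U ζ y) c hc0 ![e0, Complex.I • e0]
    rw [cvec_e0, ← hi, ← hna, ← two_csmul]
    congr 1
    funext i
    fin_cases i
    · show X2.act c e0 = a • e0
      rw [act_eq]
      funext m
      fin_cases m <;> simp [e0, hcdef]
    · show X2.act c (Complex.I • e0) = a • (Complex.I • e0)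
      rw [act_eq]
      funext m
      fin_cases m <;> simp [e0, hcdef]
  -- replace `e₀` by a shorter vector modulo a vertical vector
  set u : E7 := ((A⁻¹ : ℝ) : ℂ) • ![1, -(starRingEnd ℂ) ζ, 0, 0, 0, 0, 0] with hu
  set t : E7 := ![((A⁻¹ : ℝ) : ℂ) * (starRingEnd ℂ) ζ * ζ, ((A⁻¹ : ℝ) : ℂ) * (starRingEnd ℂ) ζ,
    0, 0, 0, 0, 0] with ht
  have hzz : (starRingEnd ℂ) ζ * ζ = ((‖ζ‖ ^ 2 : ℝ) : ℂ) := by
    rw [mul_comm, Complex.mul_conj, Complex.normSq_eq_norm_sq]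
  have hAc : ((A⁻¹ : ℝ) : ℂ) * (1 + ((‖ζ‖ ^ 2 : ℝ) : ℂ)) = 1 := by
    have : (1 : ℂ) + ((‖ζ‖ ^ 2 : ℝ) : ℂ) = (A : ℂ) := by rw [hA]; push_cast; ring
    rw [this, ← Complex.ofReal_mul, inv_mul_cancel₀ hA0.ne', Complex.ofReal_one]
  have he : e0 = u + t := by
    funext m
    fin_cases m
    · show (1 : ℂ) = ((A⁻¹ : ℝ) : ℂ) * 1 + ((A⁻¹ : ℝ) : ℂ) * (starRingEnd ℂ) ζ * ζ
      rw [mul_assoc, hzz, ← mul_add, hAc]
    · show (0 : ℂ) = ((A⁻¹ : ℝ) : ℂ) * -(starRingEnd ℂ) ζ + ((A⁻¹ : ℝ) : ℂ) * (starRingEnd ℂ) ζ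
      ring
    all_goals simp [e0, hu, ht]
  have hwe : w = ![a * ζ, a, 0, 0, 1, d * y, d] := by
    rw [hw, act_eq]
    funext m
    fin_cases m <;> simp [pt, hcdef]
  have hvt : ∀ s : ℂ, X2.Vert w (s • t) := by
    intro s
    rw [vert_iff, hwe]
    refine ⟨s * (((A⁻¹ : ℝ) : ℂ) * (starRingEnd ℂ) ζ) * a⁻¹, 0, 0, ?_⟩
    funext m
    fin_cases m
    · show s * (((A⁻¹ : ℝ) : ℂ) * (starRingEnd ℂ) ζ * ζ) =
        s * (((A⁻¹ : ℝ) : ℂ) * (starRingEnd ℂ) ζ) * a⁻¹ * (a * ζ)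
      field_simp
    · show s * (((A⁻¹ : ℝ) : ℂ) * (starRingEnd ℂ) ζ) =
        s * (((A⁻¹ : ℝ) : ℂ) * (starRingEnd ℂ) ζ) * a⁻¹ * a
      field_simp
    all_goals simp [ht]
  have hk1 : ∀ x : E7, ∀ s : ℂ, β w ![x, s • t] = 0 := fun x s => hb.2 w hwU ![x, s • t] 1 (hvt s)
  have hk0 : ∀ x : E7, ∀ s : ℂ, β w ![s • t, x] = 0 := fun x s => hb.2 w hwU ![s • t, x] 0 (hvt s)
  have h2 : β w ![e0, Complex.I • e0] = β w ![u, Complex.I • u] := by
    rw [he, smul_add, two_add_left, two_add_right, two_add_right, hk1]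
    have := hk0 (Complex.I • u) 1
    rw [one_smul] at this
    rw [this]
    have := hk0 (Complex.I • t) 1
    rw [one_smul] at this
    rw [this]
    ring
  have hun : ‖u‖ ^ 2 ≤ A⁻¹ := by
    have hle : ‖u‖ ≤ A⁻¹ * √A := by
      rw [hu, norm_smul, Complex.norm_real, Real.norm_of_nonneg (inv_pos.mpr hA0).le]
      refine mul_le_mul_of_nonneg_left ?_ (inv_pos.mpr hA0).le
      rw [pi_norm_le_iff_of_nonneg hsA.le]
      intro i
      fin_cases i
      · show ‖(1 : ℂ)‖ ≤ √A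
        rw [norm_one]
        exact Real.one_le_sqrt.mpr hA1
      · show ‖-(starRingEnd ℂ) ζ‖ ≤ √A
        rw [norm_neg, RCLike.norm_conj]
        exact Real.le_sqrt_of_sq_le (by linarith)
      all_goals simp
    calc ‖u‖ ^ 2 ≤ (A⁻¹ * √A) ^ 2 := by gcongr
      _ = A⁻¹ := by
        rw [mul_pow, Real.sq_sqrt hA0.le]
        field_simp
  have h3 : |β w ![u, Complex.I • u]| ≤ max C 0 * A⁻¹ := by
    have hb1 := (β w).le_opNorm ![u, Complex.I • u]
    rw [Fin.prod_univ_two] at hb1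
    have hI : ‖(![u, Complex.I • u] : Fin 2 → E7) 1‖ = ‖u‖ := by
      show ‖Complex.I • u‖ = ‖u‖
      rw [norm_smul, Complex.norm_I, one_mul]
    rw [hI] at hb1
    have hb2 : ‖β w‖ ≤ max C 0 := (hC w hwS).trans (le_max_left _ _)
    calc |β w ![u, Complex.I • u]| ≤ ‖β w‖ * (‖u‖ * ‖u‖) := hb1
      _ = ‖β w‖ * ‖u‖ ^ 2 := by ring
      _ ≤ max C 0 * A⁻¹ := by
        refine mul_le_mul hb2 hun (by positivity) (le_max_right _ _)
  rw [h1, h2, abs_mul, abs_of_pos (inv_pos.mpr hA0)]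
  calc A⁻¹ * |β w ![u, Complex.I • u]| ≤ A⁻¹ * (max C 0 * A⁻¹) :=
        mul_le_mul_of_nonneg_left h3 (inv_pos.mpr hA0).le
    _ = max C 0 * A⁻¹ ^ 2 := by ring


theorem isContW (𝕂 : Set ℝ) (hK : IsCompact 𝕂) (T : X2.Current 1) (hT : IsT 𝕂 T) :
    X2.IsCont T := by
  set I : ℝ := ∫ p : ℝ × ℂ, ((1 + ‖p.2‖ ^ 2)⁻¹) ^ 2 ∂((volume.restrict 𝕂).prod (volume : Measure ℂ))
    with hI
  refine ⟨Shell, I, isCompact_Shell, Shell_subset, fun β c hc => ?_⟩
  have hne : (![1, 0, 0, 0, 1, 1, 0] : E7) ∈ Shell := by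
    unfold Shell
    simp [AA, DD, YY]
    norm_num
  have hc0 : 0 ≤ c := (norm_nonneg _).trans (hc _ hne)
  have hfin : IsFiniteMeasure (volume.restrict 𝕂 : Measure ℝ) :=
    ⟨by rw [Measure.restrict_apply_univ]; exact hK.measure_lt_top⟩
  rw [hT β, H68.int_tF β.2.1 β.2.2.1 hK]
  have hg : Integrable (fun p : ℝ × ℂ => c * ((1 + ‖p.2‖ ^ 2)⁻¹) ^ 2)
      ((volume.restrict 𝕂).prod (volume : Measure ℂ)) :=
    (H68.integrable_dens.comp_snd (volume.restrict 𝕂)).const_mul c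
  have h1 := norm_integral_le_of_norm_le hg (f := H68.tF β.1) (Filter.Eventually.of_forall
    fun p => by
      have := bound_ptW β.1 β.2.2.1 c hc p.2 p.1
      rw [max_eq_left hc0] at this
      exact this)
  rw [integral_const_mul] at h1
  exact h1.trans (le_of_eq (mul_comm c I))

theorem positiveW (𝕂 : Set ℝ) (hK : IsCompact 𝕂) (T : X2.Current 1) (hT : IsT 𝕂 T)
    (hp : X2.PosCur T) (w : Bool) : X2.Positive w T := by
  refine ⟨hp.1, isContW 𝕂 hK T hT, fun β hβ => ?_⟩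
  have h := hT β
  rw [h]
  refine integral_nonneg fun y => integral_nonneg fun ζ => ?_
  exact wpos_of_fpos (hβ _ (ptW _ _)) _

theorem not_positiveW (T : X2.Current 1) (h : ¬ X2.PosCur (-T)) (w : Bool) :
    ¬ X2.Positive w (-T) := fun h' => h (posCur_of X2 _ h')

end Pool.Agent.SIU.H15
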